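import Mathlib

set_option autoImplicit false

namespace Pool.Agent.Helper352

open Finset

lemma exists_det_ne_zero {ι σ : Type*} [Fintype ι] [DecidableEq ι] [Fintype σ]
    (E : ι → σ → ℝ) (h : LinearIndependent ℝ E) :
    ∃ f : ι → σ, (Matrix.of fun i i' => E i (f i')).det ≠ 0 := by
  classical
  let M : Matrix ι σ ℝ := Matrix.of E
  have hrank : M.rank = Fintype.card ι := LinearIndependent.rank_matrix (M := M) h
  rw [Matrix.rank_eq_finrank_span_cols] at hrank
  obtain ⟨g, hg1, -, hg3⟩ := Submodule.exists_fun_fin_finrank_span_eq ℝ (Set.range M.col)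
  choose k hk using hg1
  let e : ι ≃ Fin (Module.finrank ℝ (Submodule.span ℝ (Set.range M.col))) :=
    (Fintype.equivFin ι).trans (finCongr hrank.symm)
  refine ⟨fun i => k (e i), ?_⟩
  have hli : LinearIndependent ℝ (Matrix.of fun i i' => E i (k (e i'))).col := by
    have h1 : (Matrix.of fun i i' => E i (k (e i'))).col = g ∘ e := by
      funext i'
      rw [Function.comp_apply, ← hk (e i')]
      rfl
    rw [h1]
    exact hg3.comp _ e.injective
  rw [Matrix.linearIndependent_cols_iff_isUnit, Matrix.isUnit_iff_isUnit_det] at hli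
  exact hli.ne_zero

lemma abs_det_le_prod {ι : Type*} [Fintype ι] [DecidableEq ι] (M : Matrix ι ι ℝ) (b : ι → ℝ)
    (hb : ∀ i j, |M i j| ≤ b i) : |M.det| ≤ (Fintype.card ι).factorial * ∏ i, b i := by
  rw [Matrix.det_apply]
  calc |∑ σ : Equiv.Perm ι, Equiv.Perm.sign σ • ∏ i, M (σ i) i|
      ≤ ∑ σ : Equiv.Perm ι, |Equiv.Perm.sign σ • ∏ i, M (σ i) i| :=
        Finset.abs_sum_le_sum_abs _ _
    _ ≤ ∑ σ : Equiv.Perm ι, ∏ i, b i := by
        apply Finset.sum_le_sum
        intro σ _
        have h1 : |Equiv.Perm.sign σ • ∏ i, M (σ i) i| = ∏ i, |M (σ i) i| := by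
          rcases Int.units_eq_one_or (Equiv.Perm.sign σ) with h2 | h2
          · rw [h2, one_smul, Finset.abs_prod]
          · rw [h2, Units.neg_smul, one_smul, abs_neg, Finset.abs_prod]
        rw [h1, ← Equiv.prod_comp σ b]
        exact Finset.prod_le_prod (fun i _ => abs_nonneg _) (fun i _ => hb _ _)
    _ = (Fintype.card ι).factorial * ∏ i, b i := by
        rw [Finset.sum_const, Finset.card_univ, Fintype.card_perm, nsmul_eq_mul]

lemma det_piecewise_eq_zero {ι κ : Type*} [Fintype ι] [DecidableEq ι] [Fintype κ]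
    (R : Matrix ι ι ℝ) (U : Matrix ι κ ℝ) (V : Matrix κ ι ℝ) (s : Finset ι)
    (hs : Fintype.card κ < s.card) :
    (Matrix.of (s.piecewise (fun i => (U * V) i) (fun i => R i))).det = 0 := by
  classical
  by_contra hne
  have hu : IsUnit (Matrix.of (s.piecewise (fun i => (U * V) i) (fun i => R i))) := by
    rw [Matrix.isUnit_iff_isUnit_det]
    exact isUnit_iff_ne_zero.mpr hne
  have hli := Matrix.linearIndependent_rows_iff_isUnit.mpr hu
  have hli2 : LinearIndependent ℝ (fun i : s => (U * V) i) := by
    have h1 := hli.comp (fun i : s => (i : ι)) Subtype.val_injective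
    have h2 : (fun i : s => (U * V) i)
        = (Matrix.of (s.piecewise (fun i => (U * V) i) (fun i => R i))).row ∘
          (fun i : s => (i : ι)) := by
      funext i
      exact (Finset.piecewise_eq_of_mem s (fun i => (U * V) i) (fun i => R i) i.2).symm
    rw [h2]
    exact h1
  have hli3 : LinearIndependent ℝ (fun i : s => U i) := by
    apply LinearIndependent.of_comp (Matrix.vecMulLinear V)
    convert hli2 using 1
    funext i
    exact (Matrix.mul_apply_eq_vecMul U V i).symm
  have := hli3.fintype_card_le_finrank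
  rw [Module.finrank_fintype_fun_eq_card, Fintype.card_coe] at this
  omega

/-- A matrix which is the sum of a matrix of low rank and a small matrix has a small
determinant. -/
lemma abs_det_add_le {ι κ : Type*} [Fintype ι] [DecidableEq ι] [Fintype κ]
    (A R : Matrix ι ι ℝ) (U : Matrix ι κ ℝ) (V : Matrix κ ι ℝ) (hA : A = U * V)
    (α η : ℝ) (hη : 0 ≤ η) (hηα : η ≤ α) (hAα : ∀ i j, |A i j| ≤ α) (hR : ∀ i j, |R i j| ≤ η)
    (hcard : Fintype.card κ ≤ Fintype.card ι) :
    |(A + R).det| ≤ 2 ^ (Fintype.card ι) * ((Fintype.card ι).factorial *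
      (α ^ (Fintype.card κ) * η ^ (Fintype.card ι - Fintype.card κ))) := by
  classical
  have hα : 0 ≤ α := hη.trans hηα
  have hexp : (A + R).det = ∑ s : Finset ι,
      (Matrix.of (s.piecewise (fun i => A i) (fun i => R i))).det := by
    have := (Matrix.detRowAlternating (n := ι) (R := ℝ)).toMultilinearMap.map_add_univ
      (fun i => A i) (fun i => R i)
    exact this
  rw [hexp]
  calc |∑ s : Finset ι, (Matrix.of (s.piecewise (fun i => A i) (fun i => R i))).det|
      ≤ ∑ s : Finset ι, |(Matrix.of (s.piecewise (fun i => A i) (fun i => R i))).det| :=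
        Finset.abs_sum_le_sum_abs _ _
    _ ≤ ∑ s : Finset ι, ((Fintype.card ι).factorial *
      (α ^ (Fintype.card κ) * η ^ (Fintype.card ι - Fintype.card κ))) := by
        apply Finset.sum_le_sum
        intro s _
        by_cases hs : Fintype.card κ < s.card
        · rw [hA, det_piecewise_eq_zero R U V s hs, abs_zero]
          positivity
        · push Not at hs
          refine (abs_det_le_prod _ (s.piecewise (fun _ => α) (fun _ => η)) ?_).trans ?_
          · intro i j
            rw [Matrix.of_apply]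
            by_cases hi : i ∈ s
            · rw [Finset.piecewise_eq_of_mem _ _ _ hi, Finset.piecewise_eq_of_mem _ _ _ hi]
              exact hAα i j
            · rw [Finset.piecewise_eq_of_notMem _ _ _ hi, Finset.piecewise_eq_of_notMem _ _ _ hi]
              exact hR i j
          · apply mul_le_mul_of_nonneg_left _ (by positivity)
            have h1 : ∏ i, (s.piecewise (fun _ => α) (fun _ => η)) i
                = α ^ s.card * η ^ (Fintype.card ι - s.card) := by
              rw [Finset.prod_piecewise]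
              simp [Finset.card_sdiff, Finset.card_univ]
            rw [h1]
            have hsι : s.card ≤ Fintype.card ι := Finset.card_le_univ s
            obtain ⟨t, ht⟩ := Nat.exists_eq_add_of_le hs
            have h2 : Fintype.card ι - s.card = t + (Fintype.card ι - Fintype.card κ) := by omega
            rw [h2, pow_add, ht, pow_add, ← ht]
            have h3 : η ^ t ≤ α ^ t := pow_le_pow_left₀ hη hηα t
            calc α ^ s.card * (η ^ t * η ^ (Fintype.card ι - Fintype.card κ))
                ≤ α ^ s.card * (α ^ t * η ^ (Fintype.card ι - Fintype.card κ)) := by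
                  apply mul_le_mul_of_nonneg_left _ (by positivity)
                  exact mul_le_mul_of_nonneg_right h3 (by positivity)
              _ = α ^ s.card * α ^ t * η ^ (Fintype.card ι - Fintype.card κ) := by ring
    _ = 2 ^ (Fintype.card ι) * ((Fintype.card ι).factorial *
      (α ^ (Fintype.card κ) * η ^ (Fintype.card ι - Fintype.card κ))) := by
        rw [Finset.sum_const, Finset.card_univ, Fintype.card_finset, nsmul_eq_mul]
        push_cast
        ring

/-- Truncated exponential. -/
noncomputable def texp (T : ℕ) (y : ℝ) : ℝ := ∑ N : Fin T, y ^ (N : ℕ) / ((N : ℕ).factorial : ℝ)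

lemma texp_eq (T : ℕ) (y : ℝ) : texp T y = ∑ N ∈ range T, y ^ N / (N.factorial : ℝ) := by
  unfold texp
  rw [Finset.sum_range]

lemma exp_sub_texp_le_of_nonneg (T : ℕ) (y : ℝ) (hy : 0 ≤ y) :
    Real.exp y - texp T y ≤ y ^ T / (T.factorial : ℝ) * Real.exp y := by
  rw [texp_eq]
  have h1 : HasSum (fun n : ℕ => y ^ n / (n.factorial : ℝ)) (Real.exp y) := by
    have := NormedSpace.expSeries_div_hasSum_exp y
    rw [Real.exp_eq_exp_ℝ]
    exact this
  have h2 : HasSum (fun n : ℕ => y ^ (n + T) / ((n + T).factorial : ℝ))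
      (Real.exp y - ∑ N ∈ range T, y ^ N / (N.factorial : ℝ)) :=
    (hasSum_nat_add_iff' T).mpr h1
  have h3 : HasSum (fun n : ℕ => y ^ T / (T.factorial : ℝ) * (y ^ n / (n.factorial : ℝ)))
      (y ^ T / (T.factorial : ℝ) * Real.exp y) := h1.mul_left _
  refine hasSum_le ?_ h2 h3
  intro n
  rw [div_mul_div_comm, ← pow_add, add_comm T n]
  apply div_le_div_of_nonneg_left (by positivity) (by positivity)
  have := Nat.factorial_mul_factorial_dvd_factorial_add n T
  have h4 := Nat.le_of_dvd (Nat.factorial_pos _) this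
  rw [mul_comm]
  exact_mod_cast h4

lemma abs_texp_le (T : ℕ) (y : ℝ) : |texp T y| ≤ Real.exp |y| := by
  rw [texp_eq]
  calc |∑ N ∈ range T, y ^ N / (N.factorial : ℝ)|
      ≤ ∑ N ∈ range T, |y ^ N / (N.factorial : ℝ)| := Finset.abs_sum_le_sum_abs _ _
    _ = ∑ N ∈ range T, |y| ^ N / (N.factorial : ℝ) := by
        refine Finset.sum_congr rfl ?_
        intro N _
        rw [abs_div, abs_pow, Nat.abs_cast]
    _ ≤ Real.exp |y| := Real.sum_le_exp_of_nonneg (abs_nonneg y) T

lemma abs_exp_sub_texp_le (T : ℕ) (y : ℝ) :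
    |Real.exp y - texp T y| ≤ |y| ^ T / (T.factorial : ℝ) * Real.exp |y| := by
  refine le_trans ?_ (exp_sub_texp_le_of_nonneg T |y| (abs_nonneg y))
  rw [texp_eq, texp_eq]
  have h := Complex.norm_exp_sub_sum_le_exp_norm_sub_sum (y : ℂ) T
  have e1 : ‖Complex.exp (y : ℂ) - ∑ m ∈ range T, (y : ℂ) ^ m / (m.factorial : ℂ)‖
      = |Real.exp y - ∑ N ∈ range T, y ^ N / (N.factorial : ℝ)| := by
    rw [← Real.norm_eq_abs, ← Complex.norm_real]
    congr 1
    push_cast
    rfl
  rw [e1, Complex.norm_real, Real.norm_eq_abs] at h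
  exact h

lemma abs_prod_sub_prod_le {n : ℕ} (x y : Fin n → ℝ) (M δ : ℝ) (hM : 1 ≤ M) (hδ : 0 ≤ δ)
    (hx : ∀ i, |x i| ≤ M) (hy : ∀ i, |y i| ≤ M) (hxy : ∀ i, |x i - y i| ≤ δ) :
    |∏ i, x i - ∏ i, y i| ≤ n * δ * M ^ n := by
  induction n with
  | zero => simp
  | succ n ih =>
    rw [Fin.prod_univ_succ, Fin.prod_univ_succ]
    have h1 := ih (fun i => x i.succ) (fun i => y i.succ) (fun i => hx _) (fun i => hy _)
      (fun i => hxy _)
    have h2 : |∏ i : Fin n, y i.succ| ≤ M ^ n := by
      rw [Finset.abs_prod]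
      calc ∏ i : Fin n, |y i.succ| ≤ ∏ _i : Fin n, M :=
            Finset.prod_le_prod (fun i _ => abs_nonneg _) (fun i _ => hy _)
        _ = M ^ n := by simp
    have h0 : 0 ≤ M := by linarith
    calc |x 0 * ∏ i : Fin n, x i.succ - y 0 * ∏ i : Fin n, y i.succ|
        = |x 0 * (∏ i : Fin n, x i.succ - ∏ i : Fin n, y i.succ)
          + (x 0 - y 0) * ∏ i : Fin n, y i.succ| := by congr 1; ring
      _ ≤ |x 0 * (∏ i : Fin n, x i.succ - ∏ i : Fin n, y i.succ)|
          + |(x 0 - y 0) * ∏ i : Fin n, y i.succ| := abs_add_le _ _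
      _ ≤ M * (n * δ * M ^ n) + δ * M ^ n := by
          rw [abs_mul, abs_mul]
          apply add_le_add
          · exact mul_le_mul (hx 0) h1 (abs_nonneg _) h0
          · exact mul_le_mul (hxy 0) h2 (abs_nonneg _) hδ
      _ ≤ M * (n * δ * M ^ n) + δ * (M * M ^ n) := by
          have : M ^ n ≤ M * M ^ n := le_mul_of_one_le_left (by positivity) hM
          have := mul_le_mul_of_nonneg_left this hδ
          linarith
      _ = ((n + 1 : ℕ) : ℝ) * δ * M ^ (n + 1) := by push_cast; ring

end Pool.Agent.Helper352
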