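import Mathlib
import Pool.Agent.Helper352.Det1

set_option autoImplicit false

namespace Pool.Agent.Helper352

open Finset

/-- The exponential pairing. -/
noncomputable def epair {n m : ℕ} (v : Fin m → Fin n → ℝ) (k : Fin n → ℕ) (s : Fin m → ℕ) : ℝ :=
  Real.exp (∑ j, (k j : ℝ) * ∑ i, (s i : ℝ) * v i j)

lemma epair_integral {n m : ℕ} (v : Fin m → Fin n → ℝ) (Q : ℕ)
    (hint : ∀ i j, ∃ z : ℤ, (z : ℝ) = Q * Real.exp (v i j)) (K q : ℕ)
    (k : Fin n → ℕ) (s : Fin m → ℕ) (hk : ∀ j, k j ≤ K) (hs : ∀ i, s i ≤ q) :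
    ∃ z : ℤ, (z : ℝ) = (Q : ℝ) ^ (n * m * K * q) * epair v k s := by
  choose z hz using hint
  have h1 : epair v k s = ∏ j, ∏ i, Real.exp (v i j) ^ (k j * s i) := by
    unfold epair
    rw [Real.exp_sum]
    refine Finset.prod_congr rfl ?_
    intro j _
    rw [Finset.mul_sum, Real.exp_sum]
    refine Finset.prod_congr rfl ?_
    intro i _
    rw [← Real.exp_nat_mul]
    congr 1
    push_cast
    ring
  have h2 : ∑ j, ∑ i, k j * s i ≤ n * m * K * q := by
    calc ∑ j, ∑ i, k j * s i ≤ ∑ _j : Fin n, ∑ _i : Fin m, K * q := by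
          apply Finset.sum_le_sum
          intro j _
          apply Finset.sum_le_sum
          intro i _
          exact Nat.mul_le_mul (hk j) (hs i)
      _ = n * m * K * q := by simp; ring
  obtain ⟨e, he⟩ := Nat.exists_eq_add_of_le h2
  refine ⟨Q ^ e * ∏ j, ∏ i, (z i j) ^ (k j * s i), ?_⟩
  push_cast
  rw [he, h1, pow_add]
  have h3 : (Q : ℝ) ^ (∑ j, ∑ i, k j * s i) = ∏ j : Fin n, ∏ i : Fin m, (Q : ℝ) ^ (k j * s i) := by
    rw [← Finset.prod_pow_eq_pow_sum]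
    refine Finset.prod_congr rfl ?_
    intro j _
    rw [← Finset.prod_pow_eq_pow_sum]
  have h4 : ∏ j, ∏ i, ((z i j : ℤ) : ℝ) ^ (k j * s i)
      = (∏ j : Fin n, ∏ i : Fin m, (Q : ℝ) ^ (k j * s i))
        * ∏ j, ∏ i, Real.exp (v i j) ^ (k j * s i) := by
    rw [← Finset.prod_mul_distrib]
    refine Finset.prod_congr rfl ?_
    intro j _
    rw [← Finset.prod_mul_distrib]
    refine Finset.prod_congr rfl ?_
    intro i _
    rw [hz, mul_pow]
  rw [h3, h4]
  ring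

lemma epair_eq_prod {n m : ℕ} (v : Fin m → Fin (n + 1) → ℝ) (x : Fin (n + 1) → ℝ) (hx0 : x 0 ≠ 0)
    (hv : ∀ i, ∑ j, x j * v i j = 0) (k : Fin (n + 1) → ℕ) (s : Fin m → ℕ) :
    epair v k s = ∏ j : Fin n, Real.exp (((k j.succ : ℝ) - k 0 * (x j.succ / x 0))
      * ∑ i, (s i : ℝ) * v i j.succ) := by
  unfold epair
  rw [← Real.exp_sum]
  congr 1
  set u : Fin (n + 1) → ℝ := fun j => ∑ i, (s i : ℝ) * v i j with hu
  have h1 : ∑ j, x j * u j = 0 := by
    have : ∑ j, x j * u j = ∑ i, (s i : ℝ) * ∑ j, x j * v i j := by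
      simp only [hu, Finset.mul_sum]
      rw [Finset.sum_comm]
      refine Finset.sum_congr rfl ?_
      intro i _
      refine Finset.sum_congr rfl ?_
      intro j _
      ring
    rw [this]
    simp [hv]
  rw [Fin.sum_univ_succ] at h1
  rw [Fin.sum_univ_succ]
  have h2 : u 0 = - ∑ j : Fin n, (x j.succ / x 0) * u j.succ := by
    have h3 : x 0 * u 0 = - ∑ j : Fin n, x j.succ * u j.succ := by linarith
    have h4 : u 0 = (x 0 * u 0) / x 0 := by field_simp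
    rw [h4, h3, neg_div, Finset.sum_div]
    congr 1
    refine Finset.sum_congr rfl ?_
    intro j _
    ring
  change (k 0 : ℝ) * u 0 + ∑ i : Fin n, (k i.succ : ℝ) * u i.succ = _
  rw [h2, mul_neg, Finset.mul_sum, ← Finset.sum_neg_distrib, ← Finset.sum_add_distrib]
  refine Finset.sum_congr rfl ?_
  intro j _
  ring

lemma det_epair_eq_zero {n m : ℕ} (v : Fin m → Fin (n + 1) → ℝ) (x : Fin (n + 1) → ℝ)
    (hx0 : x 0 ≠ 0) (hv : ∀ i, ∑ j, x j * v i j = 0) (Q : ℕ) (hQ : 1 ≤ Q)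
    (hint : ∀ i j, ∃ z : ℤ, (z : ℝ) = Q * Real.exp (v i j)) (K q T : ℕ) (hK : 1 ≤ K)
    (b : ℝ) (hb : 0 ≤ b)
    (hb2 : ∀ k : Fin (n + 1) → Fin K, ∀ s : Fin m → Fin q, ∀ j : Fin n,
      |(((k j.succ : ℕ) : ℝ) - ((k 0 : ℕ) : ℝ) * (x j.succ / x 0))
      * ∑ i, ((s i : ℕ) : ℝ) * v i j.succ| ≤ b)
    (hT : 2 * T ^ n ≤ K ^ (n + 1))
    (hW : (Q : ℝ) ^ (2 * ((n + 1) * m * K * q)) * (2 * (K : ℝ) ^ (n + 1)) ^ 2
      * Real.exp (2 * (n + 1) * b) * (n * (b ^ T / (T.factorial : ℝ))) < 1)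
    (f : (Fin (n + 1) → Fin K) → (Fin m → Fin q)) :
    (Matrix.of fun k k' : Fin (n + 1) → Fin K =>
      epair v (fun j => (k j : ℕ)) (fun i => (f k' i : ℕ))).det = 0 := by
  classical
  by_contra hne
  set L := Fintype.card (Fin (n + 1) → Fin K) with hL
  have hLK : L = K ^ (n + 1) := by simp [hL]
  have hcκ : Fintype.card (Fin n → Fin T) = T ^ n := by simp
  let φ : (Fin (n + 1) → Fin K) → Fin n → ℝ := fun k j => ((k j.succ : ℕ) : ℝ) - ((k 0 : ℕ) : ℝ) * (x j.succ / x 0)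
  let ψ : (Fin (n + 1) → Fin K) → Fin n → ℝ := fun k' j => ∑ i, ((f k' i : ℕ) : ℝ) * v i j.succ
  have hφψ : ∀ k k' j, |φ k j * ψ k' j| ≤ b := fun k k' j => hb2 k (f k') j
  let E : Matrix (Fin (n + 1) → Fin K) (Fin (n + 1) → Fin K) ℝ := Matrix.of fun k k' =>
    epair v (fun j => (k j : ℕ)) (fun i => (f k' i : ℕ))
  let U : Matrix (Fin (n + 1) → Fin K) (Fin n → Fin T) ℝ := Matrix.of fun k ν =>
    ∏ j, (φ k j) ^ ((ν j : ℕ)) / (((ν j : ℕ)).factorial : ℝ)
  let V : Matrix (Fin n → Fin T) (Fin (n + 1) → Fin K) ℝ := Matrix.of fun ν k' => ∏ j, (ψ k' j) ^ ((ν j : ℕ))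
  let A : Matrix (Fin (n + 1) → Fin K) (Fin (n + 1) → Fin K) ℝ := U * V
  have hA : ∀ k k', A k k' = ∏ j, texp T (φ k j * ψ k' j) := by
    intro k k'
    simp only [A, U, V, Matrix.mul_apply, Matrix.of_apply, texp]
    rw [Finset.prod_univ_sum, Fintype.piFinset_univ]
    refine Finset.sum_congr rfl ?_
    intro ν _
    rw [← Finset.prod_mul_distrib]
    refine Finset.prod_congr rfl ?_
    intro j _
    rw [mul_pow]
    ring
  have hE : ∀ k k', E k k' = ∏ j, Real.exp (φ k j * ψ k' j) := by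
    intro k k'
    simp only [E, Matrix.of_apply]
    rw [epair_eq_prod v x hx0 hv]
  -- constants
  set θ : ℝ := n * (b ^ T / (T.factorial : ℝ)) with hθ
  have hθ0 : 0 ≤ θ := by positivity
  set α : ℝ := Real.exp ((n + 1) * b) with hα
  have hα1 : 1 ≤ α := Real.one_le_exp (by positivity)
  have hα0 : 0 < α := Real.exp_pos _
  have hQR : (1 : ℝ) ≤ Q := by exact_mod_cast hQ
  have hKR : (1 : ℝ) ≤ K := by exact_mod_cast hK
  have hα2 : Real.exp (2 * (n + 1) * b) = α ^ 2 := by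
    rw [hα, ← Real.exp_nat_mul]
    congr 1
    push_cast
    ring
  rw [hα2] at hW
  have hθ1 : θ ≤ 1 := by
    by_contra hcon
    push Not at hcon
    have h1 : (1 : ℝ) ≤ (Q : ℝ) ^ (2 * ((n + 1) * m * K * q)) := one_le_pow₀ hQR
    have h2 : (1 : ℝ) ≤ (2 * (K : ℝ) ^ (n + 1)) ^ 2 := by
      apply one_le_pow₀
      have : (1 : ℝ) ≤ (K : ℝ) ^ (n + 1) := one_le_pow₀ hKR
      linarith
    have h3 : (1 : ℝ) ≤ α ^ 2 := one_le_pow₀ hα1
    have h4 : (1 : ℝ) ≤ (Q : ℝ) ^ (2 * ((n + 1) * m * K * q)) * (2 * (K : ℝ) ^ (n + 1)) ^ 2 * α ^ 2 :=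
      one_le_mul_of_one_le_of_one_le (one_le_mul_of_one_le_of_one_le h1 h2) h3
    have h5 : (1 : ℝ) ≤ (Q : ℝ) ^ (2 * ((n + 1) * m * K * q)) * (2 * (K : ℝ) ^ (n + 1)) ^ 2 * α ^ 2
        * θ := one_le_mul_of_one_le_of_one_le h4 hcon.le
    linarith
  -- entry bounds
  have hexpb : (1 : ℝ) ≤ Real.exp b := Real.one_le_exp hb
  have hexpn : Real.exp b ^ n ≤ α := by
    rw [← Real.exp_nat_mul, hα]
    apply Real.exp_le_exp.mpr
    nlinarith
  have hAα : ∀ k k', |A k k'| ≤ α := by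
    intro k k'
    rw [hA, Finset.abs_prod]
    calc ∏ j, |texp T (φ k j * ψ k' j)| ≤ ∏ _j : Fin n, Real.exp b := by
          apply Finset.prod_le_prod
          · intro j _; exact abs_nonneg _
          · intro j _
            exact (abs_texp_le _ _).trans (Real.exp_le_exp.mpr (hφψ k k' j))
      _ = Real.exp b ^ n := by simp
      _ ≤ α := hexpn
  have hR : ∀ k k', |(E - A) k k'| ≤ α * θ := by
    intro k k'
    rw [Matrix.sub_apply, hE, hA]
    have h1 := abs_prod_sub_prod_le (fun j => Real.exp (φ k j * ψ k' j))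
      (fun j => texp T (φ k j * ψ k' j)) (Real.exp b) (b ^ T / (T.factorial : ℝ) * Real.exp b)
      hexpb (by positivity)
      (fun j => by
        rw [abs_of_pos (Real.exp_pos _)]
        exact Real.exp_le_exp.mpr ((le_abs_self _).trans (hφψ k k' j)))
      (fun j => (abs_texp_le _ _).trans (Real.exp_le_exp.mpr (hφψ k k' j)))
      (fun j => by
        refine (abs_exp_sub_texp_le T _).trans ?_
        apply mul_le_mul
        · apply div_le_div_of_nonneg_right _ (by positivity)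
          exact pow_le_pow_left₀ (abs_nonneg _) (hφψ k k' j) T
        · exact Real.exp_le_exp.mpr (hφψ k k' j)
        · positivity
        · positivity)
    refine h1.trans (le_of_eq ?_)
    rw [hθ, hα]
    have : Real.exp ((n + 1) * b) = Real.exp b * Real.exp b ^ n := by
      rw [← Real.exp_nat_mul, ← Real.exp_add]
      congr 1
      ring
    rw [this]
    ring
  have hηα : α * θ ≤ α := mul_le_of_le_one_right hα0.le hθ1
  have hcard : Fintype.card (Fin n → Fin T) ≤ Fintype.card (Fin (n + 1) → Fin K) := by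
    rw [hcκ, ← hL, hLK]
    omega
  have hdet := abs_det_add_le A (E - A) U V rfl α (α * θ) (by positivity) hηα hAα hR hcard
  rw [add_sub_cancel, ← hL] at hdet
  -- upper bound for the square
  have hup : |E.det| ≤ (2 * L * α) ^ L * θ ^ (L - Fintype.card (Fin n → Fin T)) := by
    refine hdet.trans ?_
    have h1 : (L.factorial : ℝ) ≤ (L : ℝ) ^ L := by exact_mod_cast Nat.factorial_le_pow L
    have h2 : α ^ Fintype.card (Fin n → Fin T) * (α * θ) ^ (L - Fintype.card (Fin n → Fin T))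
        = α ^ L * θ ^ (L - Fintype.card (Fin n → Fin T)) := by
      rw [mul_pow, ← mul_assoc, ← pow_add, Nat.add_sub_cancel' hcard]
    rw [h2]
    calc (2 : ℝ) ^ L * ((L.factorial : ℝ) * (α ^ L * θ ^ (L - Fintype.card (Fin n → Fin T))))
        ≤ (2 : ℝ) ^ L * ((L : ℝ) ^ L * (α ^ L * θ ^ (L - Fintype.card (Fin n → Fin T)))) := by
          apply mul_le_mul_of_nonneg_left _ (by positivity)
          exact mul_le_mul_of_nonneg_right h1 (by positivity)
      _ = (2 * L * α) ^ L * θ ^ (L - Fintype.card (Fin n → Fin T)) := by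
          rw [mul_pow, mul_pow]; ring
  have hup2 : |E.det| ^ 2 ≤ ((2 * L * α) ^ 2 * θ) ^ L := by
    calc |E.det| ^ 2 ≤ ((2 * L * α) ^ L * θ ^ (L - Fintype.card (Fin n → Fin T))) ^ 2 :=
          pow_le_pow_left₀ (abs_nonneg _) hup 2
      _ = ((2 * L * α) ^ 2) ^ L * θ ^ (2 * (L - Fintype.card (Fin n → Fin T))) := by
          rw [mul_pow, ← pow_mul, ← pow_mul, ← pow_mul]
          congr 2 <;> ring
      _ ≤ ((2 * L * α) ^ 2) ^ L * θ ^ L := by
          apply mul_le_mul_of_nonneg_left _ (by positivity)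
          apply pow_le_pow_of_le_one hθ0 hθ1
          rw [hcκ, hLK]
          omega
      _ = ((2 * L * α) ^ 2 * θ) ^ L := (mul_pow _ _ _).symm
  -- arithmetic lower bound
  set D := (n + 1) * m * K * q with hD
  have hintE : ∀ k k', ∃ z : ℤ, (z : ℝ) = (Q : ℝ) ^ D * E k k' := by
    intro k k'
    exact epair_integral v Q hint K q _ _ (fun j => (k j).2.le) (fun i => (f k' i).2.le)
  choose z hz using hintE
  have hdetz : (((Matrix.of z : Matrix (Fin (n + 1) → Fin K) (Fin (n + 1) → Fin K) ℤ).det : ℤ) : ℝ) = ((Q : ℝ) ^ D) ^ L * E.det := by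
    have h1 : (((Matrix.of z : Matrix (Fin (n + 1) → Fin K) (Fin (n + 1) → Fin K) ℤ).det : ℤ) : ℝ)
        = ((Matrix.of z : Matrix (Fin (n + 1) → Fin K) (Fin (n + 1) → Fin K) ℤ).map (fun t : ℤ => (t : ℝ))).det := by
      have := (Int.castRingHom ℝ).map_det (Matrix.of z : Matrix (Fin (n + 1) → Fin K) (Fin (n + 1) → Fin K) ℤ)
      exact this
    have h2 : (Matrix.of z : Matrix (Fin (n + 1) → Fin K) (Fin (n + 1) → Fin K) ℤ).map (fun t : ℤ => (t : ℝ)) = ((Q : ℝ) ^ D) • E := by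
      ext k k'
      rw [Matrix.map_apply, Matrix.smul_apply, smul_eq_mul, Matrix.of_apply]
      exact hz k k'
    rw [h1, h2, Matrix.det_smul]
  have hEdet : E.det ≠ 0 := hne
  have hQD : (0 : ℝ) < ((Q : ℝ) ^ D) ^ L := by positivity
  have hz0 : (Matrix.of z : Matrix (Fin (n + 1) → Fin K) (Fin (n + 1) → Fin K) ℤ).det ≠ 0 := by
    intro h0
    rw [h0] at hdetz
    push_cast at hdetz
    have := (mul_eq_zero.mp hdetz.symm).resolve_left hQD.ne'
    exact hEdet this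
  have hlow : (1 : ℝ) ≤ ((Q : ℝ) ^ D) ^ L * |E.det| := by
    have h1 : (1 : ℤ) ≤ |(Matrix.of z : Matrix (Fin (n + 1) → Fin K) (Fin (n + 1) → Fin K) ℤ).det| := Int.one_le_abs hz0
    have h2 : (1 : ℝ) ≤ |(((Matrix.of z : Matrix (Fin (n + 1) → Fin K) (Fin (n + 1) → Fin K) ℤ).det : ℤ) : ℝ)| := by exact_mod_cast h1
    rw [hdetz, abs_mul, abs_of_pos hQD] at h2
    exact h2
  have hlow2 : (1 : ℝ) ≤ (((Q : ℝ) ^ D) ^ L) ^ 2 * |E.det| ^ 2 := by
    rw [← mul_pow]
    exact one_le_pow₀ hlow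
  have hfin : (1 : ℝ) ≤ ((Q : ℝ) ^ (2 * D) * ((2 * L * α) ^ 2 * θ)) ^ L := by
    calc (1 : ℝ) ≤ (((Q : ℝ) ^ D) ^ L) ^ 2 * |E.det| ^ 2 := hlow2
      _ ≤ (((Q : ℝ) ^ D) ^ L) ^ 2 * ((2 * L * α) ^ 2 * θ) ^ L :=
          mul_le_mul_of_nonneg_left hup2 (by positivity)
      _ = ((Q : ℝ) ^ (2 * D) * ((2 * L * α) ^ 2 * θ)) ^ L := by
          rw [mul_pow ((Q : ℝ) ^ (2 * D)), ← pow_mul, ← pow_mul, ← pow_mul]
          congr 2
          ring
  have hWeq : (Q : ℝ) ^ (2 * D) * ((2 * L * α) ^ 2 * θ)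
      = (Q : ℝ) ^ (2 * D) * (2 * (K : ℝ) ^ (n + 1)) ^ 2 * α ^ 2 * θ := by
    rw [hLK]
    push_cast
    ring
  rw [hWeq] at hfin
  have hL1 : L ≠ 0 := by
    rw [hLK]
    positivity
  have hW0 : 0 ≤ (Q : ℝ) ^ (2 * D) * (2 * (K : ℝ) ^ (n + 1)) ^ 2 * α ^ 2 * θ := by positivity
  have := pow_lt_one₀ hW0 hW hL1
  linarith

end Pool.Agent.Helper352
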