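import Mathlib
import Pool.Agent.Helper352.Det2

set_option autoImplicit false

namespace Pool.Agent.Helper352

open Finset Filter Topology

lemma exists_large (n : ℕ) : ∃ K0 : ℕ, ∀ K : ℕ, K0 ≤ K →
    4 * (n : ℝ) * ((K : ℝ) ^ (2 * (n + 1)) * Real.exp (-(K : ℝ))) < 1 := by
  have h1 := Real.tendsto_pow_mul_exp_neg_atTop_nhds_zero (2 * (n + 1))
  have h2 : Tendsto (fun K : ℕ => 4 * (n : ℝ) * ((K : ℝ) ^ (2 * (n + 1)) * Real.exp (-(K : ℝ))))
      atTop (𝓝 (4 * (n : ℝ) * 0)) :=
    (h1.comp tendsto_natCast_atTop_atTop).const_mul _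
  rw [mul_zero] at h2
  have h3 := h2.eventually (gt_mem_nhds (show (0 : ℝ) < 1 by norm_num))
  obtain ⟨K0, hK0⟩ := eventually_atTop.mp h3
  exact ⟨K0, hK0⟩

theorem vanishing (n m : ℕ) (hn : 1 ≤ n) (v : Fin m → Fin (n + 1) → ℝ) (x : Fin (n + 1) → ℝ)
    (hx0 : x 0 ≠ 0) (hv : ∀ i, ∑ j, x j * v i j = 0) (Q : ℕ) (hQ : 1 ≤ Q)
    (hint : ∀ i j, ∃ z : ℤ, (z : ℝ) = Q * Real.exp (v i j)) :
    ∃ A q0 : ℕ, 1 ≤ A ∧ ∀ q, q0 ≤ q →
      ∃ c : (Fin (n + 1) → Fin ((2 * A * q) ^ n)) → ℝ, c ≠ 0 ∧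
        ∀ s : Fin m → Fin q,
          ∑ k, c k * epair v (fun j => (k j : ℕ)) (fun i => (s i : ℕ)) = 0 := by
  classical
  set ξ : ℝ := ∑ j : Fin n, |x j.succ / x 0| with hξ
  set Vb : ℝ := ∑ i, ∑ j, |v i j| with hVb
  have hξ0 : 0 ≤ ξ := Finset.sum_nonneg (fun _ _ => abs_nonneg _)
  have hVb0 : 0 ≤ Vb := Finset.sum_nonneg (fun _ _ => Finset.sum_nonneg (fun _ _ => abs_nonneg _))
  set C1 : ℝ := (1 + ξ) * Vb + 1 with hC1
  have hC1pos : 0 < C1 := by positivity
  have hlogQ : 0 ≤ Real.log Q := Real.log_nonneg (by exact_mod_cast hQ)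
  obtain ⟨A, hA⟩ := exists_nat_ge (C1 * Real.exp 5 + 2 * (n + 1) * C1
    + 2 * (n + 1) * m * Real.log Q + 1)
  have hp1 : 0 < C1 * Real.exp 5 := by positivity
  have hp2 : 0 < 2 * ((n : ℝ) + 1) * C1 := by positivity
  have hp3 : 0 ≤ 2 * ((n : ℝ) + 1) * m * Real.log Q := by positivity
  have hAa : C1 * Real.exp 5 ≤ A := by linarith
  have hAb : 2 * (n + 1) * C1 ≤ A := by linarith
  have hAc : 2 * (n + 1) * m * Real.log Q ≤ A := by linarith
  have hA1 : 1 ≤ A := by
    have : (1 : ℝ) ≤ A := by linarith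
    exact_mod_cast this
  obtain ⟨K0, hK0⟩ := exists_large n
  refine ⟨A, K0 + 1, hA1, ?_⟩
  intro q hq
  have hq1 : 1 ≤ q := by omega
  set K := (2 * A * q) ^ n with hK
  have hbase : 1 ≤ 2 * A * q := Nat.mul_pos (Nat.mul_pos two_pos hA1) hq1
  have hKpos : 1 ≤ K := Nat.one_le_pow _ _ hbase
  have hKq : q ≤ K := by
    calc q ≤ 2 * A * q := Nat.le_mul_of_pos_left q (Nat.mul_pos two_pos hA1)
      _ = (2 * A * q) ^ 1 := (pow_one _).symm
      _ ≤ (2 * A * q) ^ n := Nat.pow_le_pow_right hbase hn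
  set T := K * (A * q) with hT
  set b : ℝ := C1 * K * q with hb
  have hKR : (1 : ℝ) ≤ K := by exact_mod_cast hKpos
  have hqR : (1 : ℝ) ≤ q := by exact_mod_cast hq1
  have hAR : (1 : ℝ) ≤ A := by exact_mod_cast hA1
  have hTR : (T : ℝ) = K * (A * q) := by rw [hT]; push_cast; ring
  have hT1 : 1 ≤ T := Nat.mul_pos hKpos (Nat.mul_pos hA1 hq1)
  have hTR1 : (1 : ℝ) ≤ T := by exact_mod_cast hT1
  have hKT : (K : ℝ) ≤ T := by
    rw [hTR]
    have : (1 : ℝ) ≤ A * q := one_le_mul_of_one_le_of_one_le hAR hqR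
    nlinarith
  have hb0 : 0 ≤ b := by positivity
  -- the determinant vanishes
  have hdet := det_epair_eq_zero v x hx0 hv Q hQ hint K q T hKpos b hb0 ?_ ?_ ?_
  · -- conclusion
    by_contra hcon
    push Not at hcon
    have hli : LinearIndependent ℝ (fun (k : Fin (n + 1) → Fin K) (s : Fin m → Fin q) =>
        epair v (fun j => (k j : ℕ)) (fun i => (s i : ℕ))) := by
      by_contra hnot
      rw [Fintype.not_linearIndependent_iff] at hnot
      obtain ⟨c, hc1, k, hk⟩ := hnot
      obtain ⟨s, hs⟩ := hcon c (by intro h0; rw [h0] at hk; exact hk rfl)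
      apply hs
      have := congrFun hc1 s
      simpa [Finset.sum_apply, Pi.smul_apply, smul_eq_mul] using this
    obtain ⟨f, hf⟩ := exists_det_ne_zero _ hli
    exact hf (hdet f)
  · -- the bound for the bilinear form
    intro k s j
    rw [abs_mul]
    have h1 : |((k j.succ : ℕ) : ℝ) - ((k 0 : ℕ) : ℝ) * (x j.succ / x 0)| ≤ K * (1 + ξ) := by
      have e1 : ((k j.succ : ℕ) : ℝ) ≤ K := by exact_mod_cast (k j.succ).2.le
      have e2 : ((k 0 : ℕ) : ℝ) ≤ K := by exact_mod_cast (k 0).2.le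
      have e3 : |x j.succ / x 0| ≤ ξ :=
        Finset.single_le_sum (f := fun j : Fin n => |x j.succ / x 0|)
          (fun _ _ => abs_nonneg _) (Finset.mem_univ j)
      calc |((k j.succ : ℕ) : ℝ) - ((k 0 : ℕ) : ℝ) * (x j.succ / x 0)|
          ≤ |((k j.succ : ℕ) : ℝ)| + |((k 0 : ℕ) : ℝ) * (x j.succ / x 0)| := abs_sub _ _
        _ = ((k j.succ : ℕ) : ℝ) + ((k 0 : ℕ) : ℝ) * |x j.succ / x 0| := by
            rw [abs_mul, Nat.abs_cast, Nat.abs_cast]
        _ ≤ K + K * ξ := by
            apply add_le_add e1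
            exact mul_le_mul e2 e3 (abs_nonneg _) (by positivity)
        _ = K * (1 + ξ) := by ring
    have h2 : |∑ i, ((s i : ℕ) : ℝ) * v i j.succ| ≤ q * Vb := by
      calc |∑ i, ((s i : ℕ) : ℝ) * v i j.succ| ≤ ∑ i, |((s i : ℕ) : ℝ) * v i j.succ| :=
            Finset.abs_sum_le_sum_abs _ _
        _ ≤ ∑ i, q * ∑ j, |v i j| := by
            apply Finset.sum_le_sum
            intro i _
            rw [abs_mul, Nat.abs_cast]
            apply mul_le_mul
            · exact_mod_cast (s i).2.le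
            · exact Finset.single_le_sum (f := fun j => |v i j|)
                (fun _ _ => abs_nonneg _) (Finset.mem_univ j.succ)
            · exact abs_nonneg _
            · positivity
        _ = q * Vb := by rw [← Finset.mul_sum]
    calc |((k j.succ : ℕ) : ℝ) - ((k 0 : ℕ) : ℝ) * (x j.succ / x 0)|
        * |∑ i, ((s i : ℕ) : ℝ) * v i j.succ|
        ≤ (K * (1 + ξ)) * (q * Vb) := mul_le_mul h1 h2 (abs_nonneg _) (by positivity)
      _ = ((1 + ξ) * Vb) * (K * q) := by ring
      _ ≤ C1 * (K * q) := by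
          apply mul_le_mul_of_nonneg_right _ (by positivity)
          rw [hC1]; linarith
      _ = b := by rw [hb]; ring
  · -- the number of monomials
    have h2n : 2 ≤ 2 ^ n := by
      calc 2 = 2 ^ 1 := (pow_one 2).symm
        _ ≤ 2 ^ n := Nat.pow_le_pow_right two_pos hn
    calc 2 * T ^ n = 2 * (K ^ n * (A * q) ^ n) := by rw [hT, mul_pow]
      _ ≤ 2 ^ n * (K ^ n * (A * q) ^ n) := Nat.mul_le_mul_right _ h2n
      _ = K ^ n * (2 * A * q) ^ n := by rw [mul_assoc 2 A q, mul_pow 2]; ring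
      _ = K ^ (n + 1) := by rw [← hK, pow_succ]
  · -- the numerical inequality
    have e1 : (Q : ℝ) ^ (2 * ((n + 1) * m * K * q)) ≤ Real.exp T := by
      have hQ0 : (0 : ℝ) < Q := by exact_mod_cast hQ
      rw [← Real.exp_log hQ0, ← Real.exp_nat_mul]
      apply Real.exp_le_exp.mpr
      push_cast
      calc 2 * (((n : ℝ) + 1) * m * K * q) * Real.log Q
          = (2 * (n + 1) * m * Real.log Q) * (K * q) := by ring
        _ ≤ A * (K * q) := mul_le_mul_of_nonneg_right hAc (by positivity)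
        _ = T := by rw [hTR]; ring
    have e2 : Real.exp (2 * (n + 1) * b) ≤ Real.exp T := by
      apply Real.exp_le_exp.mpr
      rw [hb, hTR]
      calc 2 * ((n : ℝ) + 1) * (C1 * K * q) = (2 * (n + 1) * C1) * (K * q) := by ring
        _ ≤ A * (K * q) := mul_le_mul_of_nonneg_right hAb (by positivity)
        _ = K * (A * q) := by ring
    have e3 : b ^ T / (T.factorial : ℝ) ≤ Real.exp (-(4 * T)) := by
      have hbT : b ≤ Real.exp (-5) * T := by
        rw [hb, hTR]
        have h5 : Real.exp (-5) * Real.exp 5 = 1 := by rw [← Real.exp_add]; simp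
        calc C1 * K * q = (Real.exp (-5) * Real.exp 5) * (C1 * (K * q)) := by rw [h5]; ring
          _ = Real.exp (-5) * (C1 * Real.exp 5) * (K * q) := by ring
          _ ≤ Real.exp (-5) * A * (K * q) := by
              apply mul_le_mul_of_nonneg_right _ (by positivity)
              exact mul_le_mul_of_nonneg_left hAa (Real.exp_pos _).le
          _ = Real.exp (-5) * (K * (A * q)) := by ring
      have hTT : (T : ℝ) ^ T / (T.factorial : ℝ) ≤ Real.exp T :=
        Real.pow_div_factorial_le_exp (T : ℝ) (by positivity) T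
      calc b ^ T / (T.factorial : ℝ) ≤ (Real.exp (-5) * T) ^ T / (T.factorial : ℝ) := by
            apply div_le_div_of_nonneg_right _ (by positivity)
            exact pow_le_pow_left₀ hb0 hbT T
        _ = Real.exp (-5) ^ T * ((T : ℝ) ^ T / (T.factorial : ℝ)) := by rw [mul_pow]; ring
        _ ≤ Real.exp (-5) ^ T * Real.exp T := mul_le_mul_of_nonneg_left hTT (by positivity)
        _ = Real.exp (-(4 * T)) := by
            rw [← Real.exp_nat_mul, ← Real.exp_add]
            congr 1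
            ring
    have e4 := hK0 K (by omega)
    have e5 : Real.exp (-(2 * (T : ℝ))) ≤ Real.exp (-(K : ℝ)) := by
      apply Real.exp_le_exp.mpr
      linarith
    calc (Q : ℝ) ^ (2 * ((n + 1) * m * K * q)) * (2 * (K : ℝ) ^ (n + 1)) ^ 2
        * Real.exp (2 * (n + 1) * b) * (n * (b ^ T / (T.factorial : ℝ)))
        ≤ Real.exp T * (2 * (K : ℝ) ^ (n + 1)) ^ 2
        * Real.exp T * (n * Real.exp (-(4 * T))) := by
          apply mul_le_mul
          · apply mul_le_mul
            · exact mul_le_mul_of_nonneg_right e1 (by positivity)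
            · exact e2
            · positivity
            · positivity
          · exact mul_le_mul_of_nonneg_left e3 (by positivity)
          · positivity
          · positivity
      _ = 4 * (n : ℝ) * ((K : ℝ) ^ (2 * (n + 1)) * Real.exp (-(2 * (T : ℝ)))) := by
          have h6 : Real.exp (-(2 * (T : ℝ))) = Real.exp T * Real.exp T * Real.exp (-(4 * T)) := by
            rw [← Real.exp_add, ← Real.exp_add]
            congr 1
            ring
          rw [h6]
          ring
      _ ≤ 4 * (n : ℝ) * ((K : ℝ) ^ (2 * (n + 1)) * Real.exp (-(K : ℝ))) := by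
          apply mul_le_mul_of_nonneg_left _ (by positivity)
          exact mul_le_mul_of_nonneg_left e5 (by positivity)
      _ < 1 := e4

end Pool.Agent.Helper352
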