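import Mathlib

set_option autoImplicit false

namespace Pool.Agent.Helper352

open MvPolynomial Finset

/-- Rescaling of the variables. -/
noncomputable def scale {d : ℕ} (c : Fin d → ℝ) :
    MvPolynomial (Fin d) ℝ →ₐ[ℝ] MvPolynomial (Fin d) ℝ :=
  aeval (fun j => C (c j) * X j)

lemma scale_monomial {d : ℕ} (c : Fin d → ℝ) (k : Fin d →₀ ℕ) (x : ℝ) :
    scale c (monomial k x) = monomial k (x * ∏ j, c j ^ k j) := by
  unfold scale
  rw [aeval_monomial, monomial_eq, Finsupp.prod_fintype _ _ (by intro i; simp),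
    Finsupp.prod_fintype _ _ (by intro i; simp)]
  simp only [mul_pow, Finset.prod_mul_distrib, ← C_pow, ← map_prod, C_mul, algebraMap_eq]
  ring

lemma coeff_scale {d : ℕ} (c : Fin d → ℝ) (P : MvPolynomial (Fin d) ℝ) (k : Fin d →₀ ℕ) :
    coeff k (scale c P) = (∏ j, c j ^ k j) * coeff k P := by
  induction P using MvPolynomial.induction_on' with
  | monomial u x =>
    rw [scale_monomial, coeff_monomial, coeff_monomial]
    split_ifs with h
    · subst h; ring
    · ring
  | add p q hp hq => rw [map_add, coeff_add, coeff_add, hp, hq]; ring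

lemma eval_scale {d : ℕ} (c y : Fin d → ℝ) (P : MvPolynomial (Fin d) ℝ) :
    eval y (scale c P) = eval (fun j => c j * y j) P := by
  induction P using MvPolynomial.induction_on with
  | C x => simp [scale]
  | add p q hp hq => rw [map_add, map_add, map_add, hp, hq]
  | mul_X p i hp => rw [map_mul, map_mul, map_mul, hp]; simp [scale]

lemma scale_scale {d : ℕ} (c c' : Fin d → ℝ) (P : MvPolynomial (Fin d) ℝ) :
    scale c (scale c' P) = scale (fun j => c j * c' j) P := by
  ext k
  rw [coeff_scale, coeff_scale, coeff_scale]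
  simp only [mul_pow, Finset.prod_mul_distrib]
  ring

lemma scale_one {d : ℕ} (P : MvPolynomial (Fin d) ℝ) : scale (fun _ => 1) P = P := by
  ext k
  rw [coeff_scale]
  simp

/-- Rescaling by nonzero scalars is an automorphism. -/
noncomputable def scaleEquiv {d : ℕ} (c : Fin d → ℝ) (hc : ∀ j, c j ≠ 0) :
    MvPolynomial (Fin d) ℝ ≃ₐ[ℝ] MvPolynomial (Fin d) ℝ :=
  AlgEquiv.ofAlgHom (scale c) (scale fun j => (c j)⁻¹)
    (by
      ext j : 1
      simp only [AlgHom.comp_apply, AlgHom.id_apply]
      rw [scale_scale]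
      have : (fun j => c j * (c j)⁻¹) = fun _ => (1 : ℝ) := by
        funext j; exact mul_inv_cancel₀ (hc j)
      rw [this, scale_one])
    (by
      ext j : 1
      simp only [AlgHom.comp_apply, AlgHom.id_apply]
      rw [scale_scale]
      have : (fun j => (c j)⁻¹ * c j) = fun _ => (1 : ℝ) := by
        funext j; exact inv_mul_cancel₀ (hc j)
      rw [this, scale_one])

lemma scaleEquiv_apply {d : ℕ} (c : Fin d → ℝ) (hc : ∀ j, c j ≠ 0) (P : MvPolynomial (Fin d) ℝ) :
    scaleEquiv c hc P = scale c P := rfl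

lemma scaleEquiv_symm_apply {d : ℕ} (c : Fin d → ℝ) (hc : ∀ j, c j ≠ 0)
    (P : MvPolynomial (Fin d) ℝ) :
    (scaleEquiv c hc).symm P = scale (fun j => (c j)⁻¹) P := rfl

lemma degreeOf_scale_le {d : ℕ} (c : Fin d → ℝ) (P : MvPolynomial (Fin d) ℝ) (j : Fin d) :
    degreeOf j (scale c P) ≤ degreeOf j P := by
  rw [degreeOf_eq_sup, degreeOf_eq_sup]
  apply Finset.sup_mono
  intro k hk
  rw [mem_support_iff, coeff_scale] at hk
  rw [mem_support_iff]
  exact right_ne_zero_of_mul hk

lemma card_le_totalDegree_prod {d : ℕ} (s : Multiset (MvPolynomial (Fin d) ℝ))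
    (hs : ∀ q ∈ s, Irreducible q) : Multiset.card s ≤ s.prod.totalDegree := by
  induction s using Multiset.induction_on with
  | empty => simp
  | cons q s ih =>
    have hq := hs q (Multiset.mem_cons_self q s)
    have hs' : ∀ q ∈ s, Irreducible q := fun q' hq' => hs q' (Multiset.mem_cons_of_mem hq')
    rw [Multiset.card_cons, Multiset.prod_cons]
    have hprod : s.prod ≠ 0 := by
      rw [Ne, Multiset.prod_eq_zero_iff]
      intro h0
      exact (hs' 0 h0).ne_zero rfl
    rw [totalDegree_mul_of_isDomain hq.ne_zero hprod]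
    have h1 : 1 ≤ q.totalDegree := by
      by_contra hcon
      have h0 : q.totalDegree = 0 := by omega
      rw [totalDegree_eq_zero_iff_eq_C] at h0
      have hu : IsUnit q := by
        rw [h0]
        apply IsUnit.map
        rw [isUnit_iff_ne_zero]
        intro hc
        rw [hc] at h0
        simp only [C_0] at h0
        exact hq.ne_zero h0
      exact hq.not_isUnit hu
    have := ih hs'
    omega

lemma card_factors_le {d : ℕ} (P : MvPolynomial (Fin d) ℝ) (hP : P ≠ 0) :
    Multiset.card (UniqueFactorizationMonoid.factors P) ≤ P.totalDegree := by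
  have h1 := UniqueFactorizationMonoid.factors_prod hP
  refine (card_le_totalDegree_prod _ ?_).trans ?_
  · intro q hq
    exact UniqueFactorizationMonoid.irreducible_of_factor q hq
  · exact totalDegree_le_of_dvd_of_isDomain h1.dvd hP

lemma totalDegree_le_mul {d K : ℕ} (P : MvPolynomial (Fin d) ℝ) (hK : ∀ j, P.degreeOf j ≤ K) :
    P.totalDegree ≤ d * K := by
  rw [totalDegree, Finset.sup_le_iff]
  intro k hk
  rw [Finsupp.sum_fintype _ _ (by intro i; rfl)]
  calc ∑ i, k i ≤ ∑ i : Fin d, K := by
        apply Finset.sum_le_sum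
        intro j _
        refine le_trans ?_ (hK j)
        rw [degreeOf_eq_sup]
        exact Finset.le_sup (f := fun m : Fin d →₀ ℕ => m j) hk
    _ = d * K := by simp

end Pool.Agent.Helper352
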