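import Mathlib
import Pool.Agent.Helper352.Zero1

set_option autoImplicit false

namespace Pool.Agent.Helper352

open MvPolynomial Finset

/-- The points of a finitely generated multiplicative group. -/
noncomputable def pt {m d : ℕ} (η : Fin m → Fin d → ℝ) (s : Fin m → ℕ) : Fin d → ℝ :=
  fun j => ∏ i, η i j ^ s i

lemma pt_ne_zero {m d : ℕ} {η : Fin m → Fin d → ℝ} (hη : ∀ i j, η i j ≠ 0) (s : Fin m → ℕ)
    (j : Fin d) : pt η s j ≠ 0 := by
  unfold pt
  rw [Finset.prod_ne_zero_iff]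
  intro i _
  exact pow_ne_zero _ (hη i j)

lemma pt_add {m d : ℕ} (η : Fin m → Fin d → ℝ) (s s' : Fin m → ℕ) (j : Fin d) :
    pt η (fun i => s i + s' i) j = pt η s j * pt η s' j := by
  unfold pt
  rw [← Finset.prod_mul_distrib]
  refine Finset.prod_congr rfl ?_
  intro i _
  rw [pow_add]

lemma exists_two_monomials {d : ℕ} {P q : MvPolynomial (Fin d) ℝ} (hq : Irreducible q)
    (hqP : q ∣ P) (hX : ∀ j, ¬ (X j : MvPolynomial (Fin d) ℝ) ∣ P) :
    ∃ k k' : Fin d →₀ ℕ, k ≠ k' ∧ coeff k q ≠ 0 ∧ coeff k' q ≠ 0 := by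
  obtain ⟨k, hk⟩ := MvPolynomial.ne_zero_iff.mp hq.ne_zero
  by_contra hcon
  push Not at hcon
  have hall : ∀ k', k' ≠ k → coeff k' q = 0 := by
    intro k' hk'
    exact hcon k k' (Ne.symm hk') hk
  have hmon : q = monomial k (coeff k q) := by
    ext k'
    rw [coeff_monomial]
    split_ifs with h
    · rw [h]
    · exact hall k' (Ne.symm h)
  by_cases hk0 : k = 0
  · apply hq.not_isUnit
    rw [hmon, hk0]
    have : (monomial 0 (coeff 0 q) : MvPolynomial (Fin d) ℝ) = C (coeff 0 q) := rfl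
    rw [this]
    apply IsUnit.map
    rw [isUnit_iff_ne_zero, ← hk0]
    exact hk
  · obtain ⟨j, hj⟩ : ∃ j, k j ≠ 0 := by
      by_contra hcon2
      push Not at hcon2
      exact hk0 (Finsupp.ext hcon2)
    apply hX j
    refine dvd_trans ?_ hqP
    rw [hmon, X_dvd_monomial]
    right
    exact hj

/-- Case 1: a common factor of all the translates. -/
lemma case_one {d m S h K : ℕ} (η : Fin m → Fin d → ℝ) (hη : ∀ i j, η i j ≠ 0)
    (hfib : ∀ κ : Fin d → ℤ, κ ≠ 0 → ∀ c : ℝ,
      (univ.filter (fun s : Fin m → Fin S =>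
        ∏ j, (pt η (fun i => (s i : ℕ)) j) ^ (κ j) = c)).card ≤ S ^ h)
    (P : MvPolynomial (Fin d) ℝ) (hP : P ≠ 0) (hK : ∀ j, P.degreeOf j ≤ K)
    (hX : ∀ j, ¬ (X j : MvPolynomial (Fin d) ℝ) ∣ P) (hS : 1 ≤ S)
    (q : MvPolynomial (Fin d) ℝ) (hq : Irreducible q)
    (hdvd : ∀ s : Fin m → Fin S, q ∣ scale (pt η (fun i => (s i : ℕ))) P) :
    S ^ m ≤ (d * K) * S ^ h := by
  classical
  have hη' := fun (s : Fin m → Fin S) => pt_ne_zero hη (fun i => (s i : ℕ))
  -- q divides P itself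
  have hqP : q ∣ P := by
    have h0 := hdvd (fun _ => ⟨0, by omega⟩)
    have h1 : pt η (fun i => (((fun _ : Fin m => (⟨0, by omega⟩ : Fin S)) i : Fin S) : ℕ))
        = fun _ => 1 := by
      funext j
      simp [pt]
    rw [h1, scale_one] at h0
    exact h0
  obtain ⟨k, k', hkk', hk, hk'⟩ := exists_two_monomials hq hqP hX
  -- the translated factors
  let Q : (Fin m → Fin S) → MvPolynomial (Fin d) ℝ := fun s =>
    scale (fun j => (pt η (fun i => (s i : ℕ)) j)⁻¹) q
  have hQirr : ∀ s, Irreducible (Q s) := by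
    intro s
    have := MulEquiv.irreducible_iff (scaleEquiv _ (hη' s)).symm (x := q)
    exact this.mpr hq
  have hQdvd : ∀ s, Q s ∣ P := by
    intro s
    obtain ⟨r, hr⟩ := hdvd s
    refine ⟨scale (fun j => (pt η (fun i => (s i : ℕ)) j)⁻¹) r, ?_⟩
    simp only [Q]
    rw [← map_mul, ← hr, scale_scale]
    have : (fun j => (pt η (fun i => (s i : ℕ)) j)⁻¹ * pt η (fun i => (s i : ℕ)) j)
        = fun _ => (1 : ℝ) := by
      funext j; exact inv_mul_cancel₀ (hη' s j)
    rw [this, scale_one]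
  have hex : ∀ s, ∃ b ∈ UniqueFactorizationMonoid.factors P, Associated (Q s) b := fun s =>
    UniqueFactorizationMonoid.exists_mem_factors_of_dvd hP (hQirr s) (hQdvd s)
  choose F hF1 hF2 using hex
  let T : Finset (MvPolynomial (Fin d) ℝ) := (UniqueFactorizationMonoid.factors P).toFinset
  have hmaps : ∀ s ∈ (univ : Finset (Fin m → Fin S)), F s ∈ T := by
    intro s _
    exact Multiset.mem_toFinset.mpr (hF1 s)
  have hfiber : ∀ b ∈ T, ((univ : Finset (Fin m → Fin S)).filter (fun s => F s = b)).card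
      ≤ S ^ h := by
    intro b _
    by_cases hemp : ((univ : Finset (Fin m → Fin S)).filter (fun s => F s = b)) = ∅
    · rw [hemp]; simp
    -- the common value
    let κ : Fin d → ℤ := fun j => (k' j : ℤ) - (k j : ℤ)
    have hκ : κ ≠ 0 := by
      intro h0
      apply hkk'
      ext j
      have := congrFun h0 j
      simp only [κ, Pi.zero_apply] at this
      omega
    refine le_trans ?_ (hfib κ hκ (coeff k b * coeff k' q / (coeff k' b * coeff k q)))
    apply Finset.card_le_card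
    intro s hs
    rw [Finset.mem_filter] at hs ⊢
    refine ⟨Finset.mem_univ _, ?_⟩
    have hass := hF2 s
    rw [hs.2] at hass
    obtain ⟨u, hu⟩ := hass
    obtain ⟨c, hc⟩ := MvPolynomial.isUnit_iff_eq_C_of_isReduced.mp u.isUnit
    have hc0 : c ≠ 0 := hc.1.ne_zero
    rw [hc.2] at hu
    have hck : coeff k b = (∏ j, ((pt η (fun i => (s i : ℕ)) j)⁻¹) ^ k j) * coeff k q * c := by
      rw [← hu, mul_comm _ (C c), coeff_C_mul, coeff_scale]
      ring
    have hck' : coeff k' b = (∏ j, ((pt η (fun i => (s i : ℕ)) j)⁻¹) ^ k' j) * coeff k' q * c := by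
      rw [← hu, mul_comm _ (C c), coeff_C_mul, coeff_scale]
      ring
    rw [hck, hck']
    have hne1 : (∏ j, ((pt η (fun i => (s i : ℕ)) j)⁻¹) ^ k j) ≠ 0 := by
      rw [Finset.prod_ne_zero_iff]
      intro j _
      exact pow_ne_zero _ (inv_ne_zero (hη' s j))
    have hne2 : (∏ j, ((pt η (fun i => (s i : ℕ)) j)⁻¹) ^ k' j) ≠ 0 := by
      rw [Finset.prod_ne_zero_iff]
      intro j _
      exact pow_ne_zero _ (inv_ne_zero (hη' s j))
    rw [eq_div_iff (by positivity)]
    have hprod : (∏ j, (pt η (fun i => (s i : ℕ)) j) ^ (κ j))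
        * (∏ j, ((pt η (fun i => (s i : ℕ)) j)⁻¹) ^ k' j)
        = (∏ j, ((pt η (fun i => (s i : ℕ)) j)⁻¹) ^ k j) := by
      rw [← Finset.prod_mul_distrib]
      refine Finset.prod_congr rfl ?_
      intro j _
      have hne := hη' s j
      simp only [κ]
      rw [zpow_sub₀ hne, zpow_natCast, zpow_natCast, inv_pow, inv_pow]
      field_simp
    calc (∏ j, (pt η (fun i => (s i : ℕ)) j) ^ (κ j))
        * ((∏ j, ((pt η (fun i => (s i : ℕ)) j)⁻¹) ^ k' j) * coeff k' q * c * coeff k q)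
        = ((∏ j, (pt η (fun i => (s i : ℕ)) j) ^ (κ j))
        * (∏ j, ((pt η (fun i => (s i : ℕ)) j)⁻¹) ^ k' j)) * (coeff k' q * c * coeff k q) := by ring
      _ = (∏ j, ((pt η (fun i => (s i : ℕ)) j)⁻¹) ^ k j) * coeff k q * c * coeff k' q := by
        rw [hprod]; ring
  have hcard := Finset.card_le_mul_card_image_of_maps_to hmaps (S ^ h) hfiber
  have hT : T.card ≤ d * K :=
    (Multiset.toFinset_card_le _).trans ((card_factors_le P hP).trans (totalDegree_le_mul P hK))
  calc S ^ m = (univ : Finset (Fin m → Fin S)).card := by simp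
    _ ≤ S ^ h * T.card := hcard
    _ ≤ S ^ h * (d * K) := Nat.mul_le_mul_left _ hT
    _ = (d * K) * S ^ h := by ring

/-- Case 2: a combination of the translates coprime to `P`. -/
lemma case_two {d m S : ℕ} (η : Fin m → Fin d → ℝ)
    (P : MvPolynomial (Fin d) ℝ) (hP : P ≠ 0)
    (hdvd : ∀ q : MvPolynomial (Fin d) ℝ, Irreducible q → q ∣ P →
      ∃ s : Fin m → Fin S, ¬ q ∣ scale (pt η (fun i => (s i : ℕ))) P) :
    ∃ c : (Fin m → Fin S) → ℝ,
      IsRelPrime P (∑ s, C (c s) * scale (pt η (fun i => (s i : ℕ))) P) := by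
  classical
  let T : Finset (MvPolynomial (Fin d) ℝ) := (UniqueFactorizationMonoid.factors P).toFinset
  -- the linear map
  let φ : ((Fin m → Fin S) → ℝ) →ₗ[ℝ] MvPolynomial (Fin d) ℝ :=
    Fintype.linearCombination ℝ (fun s => scale (pt η (fun i => (s i : ℕ))) P)
  have hφ : ∀ c, φ c = ∑ s, C (c s) * scale (pt η (fun i => (s i : ℕ))) P := by
    intro c
    simp only [φ, Fintype.linearCombination_apply, smul_eq_C_mul]
  let V : T → Submodule ℝ ((Fin m → Fin S) → ℝ) := fun q =>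
    ((Ideal.span {(q : MvPolynomial (Fin d) ℝ)}).restrictScalars ℝ).comap φ
  have hV : ∀ q c, c ∈ V q ↔ (q : MvPolynomial (Fin d) ℝ) ∣ φ c := by
    intro q c
    simp only [V, Submodule.mem_comap, Submodule.restrictScalars_mem, Ideal.mem_span_singleton]
  have hne : ¬ (⋃ q, (V q : Set ((Fin m → Fin S) → ℝ)) = Set.univ) := by
    intro hcov
    obtain ⟨q, hq⟩ := Subspace.exists_eq_top_of_iUnion_eq_univ hcov
    have hqT : (q : MvPolynomial (Fin d) ℝ) ∈ UniqueFactorizationMonoid.factors P :=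
      Multiset.mem_toFinset.mp q.2
    obtain ⟨s, hs⟩ := hdvd q (UniqueFactorizationMonoid.irreducible_of_factor _ hqT)
      (UniqueFactorizationMonoid.dvd_of_mem_factors hqT)
    apply hs
    have hmem : (Pi.single s 1 : (Fin m → Fin S) → ℝ) ∈ V q := by rw [hq]; trivial
    rw [hV] at hmem
    simp only [φ, Fintype.linearCombination_apply_single, one_smul] at hmem
    exact hmem
  rw [Set.eq_univ_iff_forall] at hne
  push Not at hne
  obtain ⟨c, hc⟩ := hne
  rw [Set.mem_iUnion] at hc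
  push Not at hc
  refine ⟨c, ?_⟩
  rw [← hφ c]
  rw [UniqueFactorizationMonoid.isRelPrime_iff_no_prime_factors hP]
  intro q hqP hqφ hqprime
  obtain ⟨b, hb, hqb⟩ := UniqueFactorizationMonoid.exists_mem_factors_of_dvd hP
    hqprime.irreducible hqP
  apply hc ⟨b, Multiset.mem_toFinset.mpr hb⟩
  rw [SetLike.mem_coe, hV]
  exact hqb.symm.dvd.trans hqφ

end Pool.Agent.Helper352
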