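import Mathlib
import Pool.Agent.Helper352.Zero2

set_option autoImplicit false

namespace Pool.Agent.Helper352

open MvPolynomial Finset

lemma resultant_ne_zero_of_isRelPrime {A : Type*} [CommRing A] [IsDomain A]
    [UniqueFactorizationMonoid A] (f g : Polynomial A) (hf : f.natDegree ≠ 0)
    (h : IsRelPrime f g) : Polynomial.resultant f g ≠ 0 := by
  classical
  intro h0
  have hf0 : f ≠ 0 := by
    intro h1; rw [h1] at hf; simp at hf
  rw [Polynomial.resultant, ← Matrix.exists_mulVec_eq_zero_iff] at h0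
  obtain ⟨v, hv, hv0⟩ := h0
  let b₁ := ((Polynomial.degreeLT.basis A f.natDegree).prod
    (Polynomial.degreeLT.basis A g.natDegree)).reindex finSumFinEquiv
  let b₂ := Polynomial.degreeLT.basis A (f.natDegree + g.natDegree)
  rw [← Polynomial.toMatrix_sylvesterMap' f g le_rfl le_rfl] at hv0
  let x := b₁.equivFun.symm v
  have hx : x ≠ 0 := by
    simp only [x]
    rw [Ne, LinearEquiv.map_eq_zero_iff]
    exact hv
  have hmap : Polynomial.sylvesterMap f g le_rfl le_rfl x = 0 := by
    have h1 := LinearMap.toMatrix_mulVec_repr b₁ b₂ (Polynomial.sylvesterMap f g le_rfl le_rfl) x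
    have h2 : (b₁.repr x : Fin (f.natDegree + g.natDegree) → A) = v := by
      have := b₁.equivFun.apply_symm_apply v
      rw [← this]
      rfl
    rw [h2] at h1
    rw [hv0] at h1
    have h3 : b₂.repr (Polynomial.sylvesterMap f g le_rfl le_rfl x) = 0 := by
      ext i
      have := congrFun h1 i
      simpa using this.symm
    exact (LinearEquiv.map_eq_zero_iff b₂.repr).mp h3
  obtain ⟨p, q⟩ := x
  have hmap' := congrArg Subtype.val hmap
  simp only [Polynomial.sylvesterMap_apply_coe, ZeroMemClass.coe_zero] at hmap'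
  have hdvd : f ∣ g * (p : Polynomial A) := by
    refine ⟨-(q : Polynomial A), ?_⟩
    linear_combination hmap'
  have hdvd' : f ∣ (p : Polynomial A) := h.dvd_of_dvd_mul_left hdvd
  have hp0 : (p : Polynomial A) = 0 := by
    by_contra hne
    have h1 := Polynomial.degree_le_of_dvd hdvd' hne
    have h2 := Polynomial.mem_degreeLT.mp p.2
    have h3 := lt_of_le_of_lt h1 h2
    rw [Polynomial.degree_eq_natDegree hf0] at h3
    exact lt_irrefl _ h3
  rw [hp0, mul_zero, add_zero] at hmap'
  have hq0 : (q : Polynomial A) = 0 := by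
    rcases mul_eq_zero.mp hmap' with h1 | h1
    · exact absurd h1 hf0
    · exact h1
  apply hx
  ext1
  · exact Subtype.ext hp0
  · exact Subtype.ext hq0

lemma degreeOf_resultant_le {d K : ℕ} (f g : Polynomial (MvPolynomial (Fin d) ℝ)) (j : Fin d)
    (m n : ℕ)
    (hf : ∀ i, degreeOf j (f.coeff i) ≤ K) (hg : ∀ i, degreeOf j (g.coeff i) ≤ K) :
    degreeOf j (Polynomial.resultant f g m n) ≤ (m + n) * K := by
  classical
  rw [Polynomial.resultant, Matrix.det_apply]
  refine (degreeOf_sum_le _ _ _).trans ?_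
  rw [Finset.sup_le_iff]
  intro σ _
  have hentry : ∀ i i', degreeOf j (Polynomial.sylvester f g m n i i') ≤ K := by
    intro i i'
    unfold Polynomial.sylvester
    rw [Matrix.of_apply]
    refine Fin.addCases (fun k => ?_) (fun k => ?_) i'
    · rw [Fin.addCases_left]
      split_ifs
      · exact hg _
      · simp
    · rw [Fin.addCases_right]
      split_ifs
      · exact hf _
      · simp
  have h1 : degreeOf j (∏ i, Polynomial.sylvester f g m n (σ i) i) ≤ (m + n) * K := by
    refine (degreeOf_prod_le _ _ _).trans ?_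
    calc ∑ i, degreeOf j (Polynomial.sylvester f g m n (σ i) i) ≤ ∑ i : Fin (m + n), K :=
          Finset.sum_le_sum (fun i _ => hentry _ _)
      _ = (m + n) * K := by simp
  rcases Int.units_eq_one_or (Equiv.Perm.sign σ) with h2 | h2
  · rw [h2, one_smul]; exact h1
  · rw [h2, Units.neg_smul, one_smul, degreeOf_neg]; exact h1

/-- Elimination of one variable. -/
lemma eliminate {d K : ℕ} (P Q : MvPolynomial (Fin (d + 1)) ℝ) (hP : P ≠ 0)
    (hPK : ∀ j, P.degreeOf j ≤ K) (hQK : ∀ j, Q.degreeOf j ≤ K) (hPQ : IsRelPrime P Q) :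
    ∃ R : MvPolynomial (Fin d) ℝ, R ≠ 0 ∧ (∀ j, R.degreeOf j ≤ 2 * K * K) ∧
      ∀ y : Fin (d + 1) → ℝ, eval y P = 0 → eval y Q = 0 → eval (fun j => y j.succ) R = 0 := by
  classical
  set f := finSuccEquiv ℝ d P with hf
  set g := finSuccEquiv ℝ d Q with hg
  have hf0 : f ≠ 0 := by
    rw [hf]
    simpa using hP
  have hfd : f.natDegree ≤ K := by rw [hf, natDegree_finSuccEquiv]; exact hPK 0
  have hgd : g.natDegree ≤ K := by rw [hg, natDegree_finSuccEquiv]; exact hQK 0
  have hfc : ∀ (j : Fin d) (i : ℕ), degreeOf j (f.coeff i) ≤ K := fun j i =>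
    (degreeOf_coeff_finSuccEquiv P j i).trans (hPK _)
  have hgc : ∀ (j : Fin d) (i : ℕ), degreeOf j (g.coeff i) ≤ K := fun j i =>
    (degreeOf_coeff_finSuccEquiv Q j i).trans (hQK _)
  have hevalP : ∀ y : Fin (d + 1) → ℝ,
      eval (fun j => y j.succ) (Polynomial.eval (C (y 0)) f) = eval y P := by
    intro y
    rw [hf, eval_polynomial_eval_finSuccEquiv, eval_C]
    congr 2
    funext i
    refine Fin.cases ?_ (fun j => ?_) i <;> simp
  have hevalQ : ∀ y : Fin (d + 1) → ℝ,
      eval (fun j => y j.succ) (Polynomial.eval (C (y 0)) g) = eval y Q := by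
    intro y
    rw [hg, eval_polynomial_eval_finSuccEquiv, eval_C]
    congr 2
    funext i
    refine Fin.cases ?_ (fun j => ?_) i <;> simp
  have hKK : K ≤ 2 * K * K := by
    rcases Nat.eq_zero_or_pos K with h0 | h0
    · simp [h0]
    · calc K = K * 1 := (mul_one K).symm
        _ ≤ K * (2 * K) := Nat.mul_le_mul_left K (by omega)
        _ = 2 * K * K := by ring
  by_cases hm : f.natDegree = 0
  · refine ⟨f.coeff 0, ?_, fun j => (hfc j 0).trans hKK, ?_⟩
    · intro h0
      apply hf0
      rw [Polynomial.eq_C_of_natDegree_eq_zero hm, h0, Polynomial.C_0]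
    · intro y hy _
      rw [← hevalP y, Polynomial.eq_C_of_natDegree_eq_zero hm, Polynomial.eval_C] at hy
      exact hy
  · refine ⟨Polynomial.resultant f g, ?_, ?_, ?_⟩
    · apply resultant_ne_zero_of_isRelPrime f g hm
      intro r hr1 hr2
      have h1 : (finSuccEquiv ℝ d).symm r ∣ P := by
        have := map_dvd (finSuccEquiv ℝ d).symm hr1
        rwa [hf, AlgEquiv.symm_apply_apply] at this
      have h2 : (finSuccEquiv ℝ d).symm r ∣ Q := by
        have := map_dvd (finSuccEquiv ℝ d).symm hr2
        rwa [hg, AlgEquiv.symm_apply_apply] at this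
      have h3 := hPQ h1 h2
      have h4 := h3.map (finSuccEquiv ℝ d)
      rwa [AlgEquiv.apply_symm_apply] at h4
    · intro j
      refine (degreeOf_resultant_le f g j _ _ (hfc j) (hgc j)).trans ?_
      exact Nat.mul_le_mul_right K (by omega)
    · intro y hyP hyQ
      obtain ⟨p, q, _, _, hpq⟩ := Polynomial.exists_mul_add_mul_eq_C_resultant f g le_rfl le_rfl
        (Or.inl hm)
      have h1 := congrArg (fun r => eval (fun j => y j.succ) (Polynomial.eval (C (y 0)) r)) hpq
      simp only [Polynomial.eval_add, Polynomial.eval_mul, map_add, map_mul, hevalP, hevalQ,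
        hyP, hyQ, zero_mul, add_zero, Polynomial.eval_C] at h1
      exact h1.symm

/-- Removal of the monomial factors. -/
lemma remove_monomials {d K : ℕ} (Z : Set (Fin d → ℝ)) (hZ : ∀ y ∈ Z, ∀ j, y j ≠ 0) :
    ∀ (n : ℕ) (P : MvPolynomial (Fin d) ℝ), P.totalDegree ≤ n → P ≠ 0 →
      (∀ j, P.degreeOf j ≤ K) → (∀ y ∈ Z, eval y P = 0) →
      ∃ P' : MvPolynomial (Fin d) ℝ, P' ≠ 0 ∧ (∀ j, P'.degreeOf j ≤ K) ∧
        (∀ y ∈ Z, eval y P' = 0) ∧ ∀ j, ¬ (X j : MvPolynomial (Fin d) ℝ) ∣ P' := by
  intro n
  induction n with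
  | zero =>
    intro P hn hP hK hvan
    refine ⟨P, hP, hK, hvan, ?_⟩
    rintro j ⟨r, hr⟩
    have hr0 : r ≠ 0 := by
      rintro rfl
      rw [mul_zero] at hr
      exact hP hr
    have := totalDegree_mul_of_isDomain (X_ne_zero (R := ℝ) j) hr0
    rw [← hr, totalDegree_X] at this
    omega
  | succ n ih =>
    intro P hn hP hK hvan
    by_cases hX : ∃ j, (X j : MvPolynomial (Fin d) ℝ) ∣ P
    · obtain ⟨j, r, hr⟩ := hX
      have hr0 : r ≠ 0 := by
        rintro rfl
        rw [mul_zero] at hr
        exact hP hr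
      have htot := totalDegree_mul_of_isDomain (X_ne_zero (R := ℝ) j) hr0
      rw [← hr, totalDegree_X] at htot
      apply ih r (by omega) hr0
      · intro i
        have := degreeOf_mul_eq (n := i) (X_ne_zero (R := ℝ) j) hr0
        rw [← hr] at this
        have := hK i
        omega
      · intro y hy
        have h1 := hvan y hy
        rw [hr, map_mul, eval_X] at h1
        rcases mul_eq_zero.mp h1 with h2 | h2
        · exact absurd h2 (hZ y hy j)
        · exact h2
    · push Not at hX
      exact ⟨P, hP, hK, hvan, hX⟩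

/-- The bound in the zero estimate. -/
def zb : ℕ → ℕ → ℕ
  | 0, _ => 0
  | (d + 1), K => max ((d + 1) * K) (zb d (2 * K * K))

theorem zero_estimate (m S h : ℕ) (hS : 1 ≤ S) :
    ∀ (d : ℕ) (η : Fin m → Fin d → ℝ), (∀ i j, η i j ≠ 0) →
    (∀ κ : Fin d → ℤ, κ ≠ 0 → ∀ c : ℝ,
      (univ.filter (fun s : Fin m → Fin S =>
        ∏ j, (pt η (fun i => (s i : ℕ)) j) ^ (κ j) = c)).card ≤ S ^ h) →
    ∀ (K : ℕ) (P : MvPolynomial (Fin d) ℝ), P ≠ 0 → (∀ j, P.degreeOf j ≤ K) →
    (∀ s : Fin m → ℕ, (∀ i, s i < 2 ^ d * S) → eval (pt η s) P = 0) →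
    S ^ m ≤ zb d K * S ^ h := by
  intro d
  induction d with
  | zero =>
    intro η _ _ K P hP _ hvan
    exfalso
    have h1 := hvan (fun _ => 0) (fun i => by simpa using (show 0 < S by omega))
    rw [MvPolynomial.eq_C_of_isEmpty P, eval_C] at h1
    apply hP
    rw [MvPolynomial.eq_C_of_isEmpty P, h1, C_0]
  | succ d ih =>
    intro η hη hfib K P0 hP0 hK0 hvan0
    classical
    obtain ⟨P, hP, hK, hvan, hX⟩ := remove_monomials (K := K)
      (pt η '' {s | ∀ i, s i < 2 ^ (d + 1) * S})
      (by rintro y ⟨s, _, rfl⟩ j; exact pt_ne_zero hη s j) P0.totalDegree P0 le_rfl hP0 hK0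
      (by rintro y ⟨s, hs, rfl⟩; exact hvan0 s hs)
    have hvan' : ∀ s : Fin m → ℕ, (∀ i, s i < 2 ^ (d + 1) * S) → eval (pt η s) P = 0 :=
      fun s hs => hvan _ ⟨s, hs, rfl⟩
    by_cases hcase : ∃ q : MvPolynomial (Fin (d + 1)) ℝ, Irreducible q ∧
        ∀ s : Fin m → Fin S, q ∣ scale (pt η (fun i => (s i : ℕ))) P
    · obtain ⟨q, hq, hqs⟩ := hcase
      have h1 := case_one η hη hfib P hP hK hX hS q hq hqs
      exact h1.trans (Nat.mul_le_mul_right _ (le_max_left _ _))
    · push Not at hcase
      obtain ⟨c, hc⟩ := case_two (S := S) η P hP (fun q hq _ => hcase q hq)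
      set Q := ∑ s : Fin m → Fin S, C (c s) * scale (pt η (fun i => (s i : ℕ))) P with hQ
      have hQK : ∀ j, Q.degreeOf j ≤ K := by
        intro j
        rw [hQ]
        refine (degreeOf_sum_le _ _ _).trans ?_
        rw [Finset.sup_le_iff]
        intro s _
        exact (degreeOf_C_mul_le _ _ _).trans ((degreeOf_scale_le _ _ _).trans (hK j))
      obtain ⟨R, hR, hRK, hRvan⟩ := eliminate P Q hP hK hQK hc
      have hpow : 2 ^ (d + 1) * S = 2 ^ d * S + 2 ^ d * S := by ring
      have hSle : S ≤ 2 ^ d * S := Nat.le_mul_of_pos_left S (by positivity)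
      have hind := ih (fun i j => η i j.succ) (fun i j => hη i j.succ) ?_ (2 * K * K) R hR hRK ?_
      · exact hind.trans (Nat.mul_le_mul_right _ (le_max_right _ _))
      · intro κ hκ c'
        refine le_trans (le_of_eq ?_) (hfib (Fin.cons 0 κ) ?_ c')
        · congr 1
          ext s
          rw [Finset.mem_filter, Finset.mem_filter, Fin.prod_univ_succ]
          simp only [Fin.cons_zero, zpow_zero, one_mul, Fin.cons_succ]
          rfl
        · intro h0
          apply hκ
          funext j
          have := congrFun h0 j.succ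
          simpa using this
      · intro s hs
        have hvP : eval (pt η s) P = 0 := by
          apply hvan'
          intro i
          have := hs i
          omega
        have hvQ : eval (pt η s) Q = 0 := by
          rw [hQ, map_sum]
          apply Finset.sum_eq_zero
          intro s' _
          rw [map_mul, eval_scale]
          have : (fun j => pt η (fun i => (s' i : ℕ)) j * pt η s j)
              = pt η (fun i => (s' i : ℕ) + s i) := by
            funext j
            rw [pt_add]
          rw [this, hvan', mul_zero]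
          intro i
          have h1 := hs i
          have h2 := (s' i).2
          omega
        have hpt : pt (fun i (j : Fin d) => η i j.succ) s = fun j : Fin d => pt η s j.succ := rfl
        rw [hpt]
        exact hRvan (pt η s) hvP hvQ

end Pool.Agent.Helper352
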