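import Mathlib
import Pool.Agent.Helper352.Zero3
import Pool.Agent.Helper352.Det3

set_option autoImplicit false

namespace Pool.Agent.Helper352

open Finset

lemma log_indep {N : ℕ} (p : Fin N → ℕ) (hp : ∀ i, (p i).Prime) (hinj : Function.Injective p)
    (z : Fin N → ℤ) (hz : ∑ i, (z i : ℝ) * Real.log (p i) = 0) : ∀ i, z i = 0 := by
  classical
  have h1 : ∑ i, ((z i).toNat : ℝ) * Real.log (p i) = ∑ i, ((-z i).toNat : ℝ) * Real.log (p i) := by
    rw [← sub_eq_zero, ← Finset.sum_sub_distrib, ← hz]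
    refine Finset.sum_congr rfl ?_
    intro i _
    have : (z i : ℝ) = ((z i).toNat : ℝ) - ((-z i).toNat : ℝ) := by
      have := Int.toNat_sub_toNat_neg (z i)
      have h2 : (((z i).toNat : ℤ) : ℝ) - (((-z i).toNat : ℤ) : ℝ) = (z i : ℝ) := by
        exact_mod_cast this
      push_cast at h2
      linarith
    rw [this]
    ring
  have hpos : ∀ i, (0 : ℝ) < p i := fun i => by exact_mod_cast (hp i).pos
  have h2 : (∏ i, (p i : ℝ) ^ (z i).toNat) = ∏ i, (p i : ℝ) ^ (-z i).toNat := by
    apply Real.log_injOn_pos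
    · exact Finset.prod_pos (fun i _ => pow_pos (hpos i) _)
    · exact Finset.prod_pos (fun i _ => pow_pos (hpos i) _)
    · rw [Real.log_prod (fun i _ => (pow_pos (hpos i) _).ne'),
        Real.log_prod (fun i _ => (pow_pos (hpos i) _).ne')]
      simp only [Real.log_pow]
      exact h1
  have h3 : (∏ i, (p i) ^ (z i).toNat) = ∏ i, (p i) ^ (-z i).toNat := by
    exact_mod_cast h2
  have key : ∀ (e : Fin N → ℕ) (k : Fin N), (∏ i, (p i) ^ (e i)).factorization (p k) = e k := by
    intro e k
    rw [Nat.factorization_prod (fun i _ => (pow_pos (hp i).pos _).ne')]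
    rw [Finsupp.finsetSum_apply]
    rw [Finset.sum_eq_single k]
    · rw [(hp k).factorization_pow, Finsupp.single_eq_same]
    · intro i _ hik
      rw [(hp i).factorization_pow, Finsupp.single_apply, if_neg]
      intro h
      exact hik (hinj h)
    · intro h; exact absurd (Finset.mem_univ k) h
  intro k
  have h4 : (∏ i, (p i) ^ (z i).toNat).factorization (p k) = (z k).toNat :=
    key (fun i => (z i).toNat) k
  have h5 : (∏ i, (p i) ^ (-z i).toNat).factorization (p k) = (-z k).toNat :=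
    key (fun i => (-z i).toNat) k
  rw [h3, h5] at h4
  omega

lemma zb_le (d : ℕ) : ∀ K : ℕ, zb d K ≤ d * (2 * K) ^ (2 ^ d) := by
  induction d with
  | zero => intro K; simp [zb]
  | succ d ih =>
    intro K
    rcases Nat.eq_zero_or_pos K with h0 | hKpos
    · subst h0
      have h1 : ∀ e : ℕ, zb e 0 = 0 := by
        intro e
        induction e with
        | zero => rfl
        | succ e ihe => simp [zb, ihe]
      rw [h1]
      exact Nat.zero_le _
    rw [zb]
    apply max_le
    · have h2 : K ≤ (2 * K) ^ (2 ^ (d + 1)) := by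
        calc K ≤ 2 * K := by omega
          _ = (2 * K) ^ 1 := (pow_one _).symm
          _ ≤ (2 * K) ^ (2 ^ (d + 1)) := Nat.pow_le_pow_right (by omega) Nat.one_le_two_pow
      exact Nat.mul_le_mul_left _ h2
    · refine (ih _).trans ?_
      have h3 : (2 * (2 * K * K)) ^ 2 ^ d = (2 * K) ^ (2 ^ (d + 1)) := by
        rw [pow_succ 2 d, mul_comm (2 ^ d) 2, pow_mul]
        congr 1
        ring
      rw [h3]
      exact Nat.mul_le_mul_right _ (by omega)

theorem core (n : ℕ) (hn : 1 ≤ n) (m : ℕ) (hm : m = n * 2 ^ (n + 1) + n + 1)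
    (p : Fin (m + 1) → ℕ) (hp : ∀ i, (p i).Prime) (hinj : Function.Injective p)
    (x : Fin (n + 1) → ℝ) (hx0 : x 0 ≠ 0) (a : Fin (m + 1) → Fin (n + 1) → ℤ)
    (ha : ∀ i, (∑ j, x j * a i j) * Real.log (p i) = 1)
    (hgp : ∀ κ : Fin (n + 1) → ℤ, κ ≠ 0 →
      (univ.filter fun i : Fin m => ∑ j, κ j * a i.succ j = 0).card ≤ n) : False := by
  classical
  have hppos : ∀ i, (0 : ℝ) < p i := fun i => by exact_mod_cast (hp i).pos
  let v : Fin m → Fin (n + 1) → ℝ := fun i j =>
    a i.succ j * Real.log (p i.succ) - a 0 j * Real.log (p 0)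
  have hv : ∀ i, ∑ j, x j * v i j = 0 := by
    intro i
    have h1 := ha i.succ
    have h2 := ha 0
    rw [Finset.sum_mul] at h1 h2
    have h3 : ∑ j, x j * v i j = ∑ j, x j * a i.succ j * Real.log (p i.succ)
        - ∑ j, x j * a 0 j * Real.log (p 0) := by
      rw [← Finset.sum_sub_distrib]
      refine Finset.sum_congr rfl ?_
      intro j _
      simp only [v]
      ring
    rw [h3, h1, h2, sub_self]
  -- rationality
  have hrat : ∀ i j, ∃ Q : ℕ, 1 ≤ Q ∧ ∃ z : ℤ, (z : ℝ) = Q * Real.exp (v i j) := by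
    intro i j
    have hexp : Real.exp (v i j)
        = (((p i.succ : ℚ) ^ (a i.succ j) * (p 0 : ℚ) ^ (-(a 0 j)) : ℚ) : ℝ) := by
      simp only [v]
      rw [Real.exp_sub, mul_comm, mul_comm _ (Real.log (p 0 : ℝ)), Real.exp_mul, Real.exp_mul,
        Real.exp_log (hppos _), Real.exp_log (hppos _), Real.rpow_intCast, Real.rpow_intCast]
      push_cast
      rw [zpow_neg, div_eq_mul_inv]
    set r : ℚ := (p i.succ : ℚ) ^ (a i.succ j) * (p 0 : ℚ) ^ (-(a 0 j)) with hr
    refine ⟨r.den, r.den_pos, r.num, ?_⟩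
    rw [hexp]
    have := Rat.mul_den_eq_num r
    have h2 : ((r.num : ℚ) : ℝ) = ((r * r.den : ℚ) : ℝ) := by rw [this]
    push_cast at h2
    rw [h2]
    ring
  choose Q0 hQ01 hQ0z using hrat
  let Q : ℕ := ∏ i, ∏ j, Q0 i j
  have hQ : 1 ≤ Q := by
    apply Nat.one_le_iff_ne_zero.mpr
    rw [Finset.prod_ne_zero_iff]
    intro i _
    rw [Finset.prod_ne_zero_iff]
    intro j _
    have := hQ01 i j
    omega
  have hint : ∀ i j, ∃ z : ℤ, (z : ℝ) = Q * Real.exp (v i j) := by
    intro i j
    have hdvd : Q0 i j ∣ Q :=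
      (Finset.dvd_prod_of_mem (fun j => Q0 i j) (Finset.mem_univ j)).trans
        (Finset.dvd_prod_of_mem (fun i => ∏ j, Q0 i j) (Finset.mem_univ i))
    obtain ⟨e, he⟩ := hdvd
    obtain ⟨z, hz⟩ := hQ0z i j
    refine ⟨e * z, ?_⟩
    push_cast
    rw [hz, he]
    push_cast
    ring
  obtain ⟨A, q0, hA, hvan⟩ := vanishing n m hn v x hx0 hv Q hQ hint
  -- choice of S
  set C : ℕ := (n + 1) * (2 * (2 * A * 2 ^ (n + 1)) ^ n) ^ (2 ^ (n + 1)) with hC
  set S : ℕ := q0 + C + 1 with hS
  set q : ℕ := 2 ^ (n + 1) * S with hq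
  have hSq : S ≤ q := Nat.le_mul_of_pos_left S (by positivity)
  obtain ⟨K, hK⟩ : ∃ K, K = (2 * A * q) ^ n := ⟨_, rfl⟩
  have hvq := hvan q (by omega)
  rw [← hK] at hvq
  obtain ⟨c, hc, hcvan⟩ := hvq
  -- the polynomial
  let η : Fin m → Fin (n + 1) → ℝ := fun i j => Real.exp (v i j)
  have hη : ∀ i j, η i j ≠ 0 := fun i j => (Real.exp_pos _).ne'
  let toF : (Fin (n + 1) → Fin K) → (Fin (n + 1) →₀ ℕ) := fun k =>
    Finsupp.equivFunOnFinite.symm (fun j => (k j : ℕ))
  have htoF : ∀ k j, toF k j = (k j : ℕ) := fun k j => rfl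
  have htoFinj : Function.Injective toF := by
    intro k k' hkk
    funext j
    apply Fin.ext
    rw [← htoF, ← htoF, hkk]
  let P : MvPolynomial (Fin (n + 1)) ℝ := ∑ k, MvPolynomial.monomial (toF k) (c k)
  have hcoeff : ∀ k, MvPolynomial.coeff (toF k) P = c k := by
    intro k
    simp only [P]
    rw [MvPolynomial.coeff_sum, Finset.sum_eq_single k]
    · rw [MvPolynomial.coeff_monomial, if_pos rfl]
    · intro k' _ hne
      rw [MvPolynomial.coeff_monomial, if_neg]
      intro h
      exact hne (htoFinj h)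
    · intro h; exact absurd (Finset.mem_univ k) h
  have hP : P ≠ 0 := by
    intro h0
    apply hc
    funext k
    rw [← hcoeff k, h0]
    simp
  have hdeg : ∀ j, P.degreeOf j ≤ K := by
    intro j
    simp only [P]
    refine (MvPolynomial.degreeOf_sum_le _ _ _).trans ?_
    rw [Finset.sup_le_iff]
    intro k _
    rw [MvPolynomial.degreeOf_eq_sup, Finset.sup_le_iff]
    intro k' hk'
    have := MvPolynomial.support_monomial_subset hk'
    rw [Finset.mem_singleton] at this
    rw [this, htoF]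
    exact (k j).2.le
  have hpow : ∀ (k : Fin (n + 1) → Fin K) (s : Fin m → ℕ),
      ∏ j, (pt η s j) ^ (k j : ℕ) = epair v (fun j => (k j : ℕ)) s := by
    intro k s
    unfold epair
    rw [Real.exp_sum]
    refine Finset.prod_congr rfl ?_
    intro j _
    rw [Real.exp_nat_mul, Real.exp_sum]
    congr 1
    unfold pt
    refine Finset.prod_congr rfl ?_
    intro i _
    rw [Real.exp_nat_mul]
  have hPvan : ∀ s : Fin m → ℕ, (∀ i, s i < 2 ^ (n + 1) * S) →
      MvPolynomial.eval (pt η s) P = 0 := by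
    intro s hs
    simp only [P]
    rw [map_sum, ← hcvan (fun i => ⟨s i, hs i⟩)]
    refine Finset.sum_congr rfl ?_
    intro k _
    rw [MvPolynomial.eval_monomial, Finsupp.prod_fintype _ _ (by intro i; simp)]
    congr 1
    have h1 := hpow k s
    simp only [htoF]
    exact h1
  -- the fibres
  have hfib : ∀ κ : Fin (n + 1) → ℤ, κ ≠ 0 → ∀ c0 : ℝ,
      (univ.filter (fun s : Fin m → Fin S =>
        ∏ j, (pt η (fun i => (s i : ℕ)) j) ^ (κ j) = c0)).card ≤ S ^ n := by
    intro κ hκ c0
    set I := univ.filter fun i : Fin m => ∑ j, κ j * a i.succ j = 0 with hI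
    have hIcard : I.card ≤ n := hgp κ hκ
    have hval : ∀ s : Fin m → Fin S, ∏ j, (pt η (fun i => (s i : ℕ)) j) ^ (κ j)
        = Real.exp (∑ j, (κ j : ℝ) * ∑ i, ((s i : ℕ) : ℝ) * v i j) := by
      intro s
      rw [Real.exp_sum]
      refine Finset.prod_congr rfl ?_
      intro j _
      rw [mul_comm, Real.exp_mul, Real.rpow_intCast, Real.exp_sum]
      congr 1
      unfold pt
      refine Finset.prod_congr rfl ?_
      intro i _
      rw [Real.exp_nat_mul]
    have hinj2 : Set.InjOn (fun (s : Fin m → Fin S) (i : I) => s i)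
        (univ.filter (fun s : Fin m → Fin S =>
        ∏ j, (pt η (fun i => (s i : ℕ)) j) ^ (κ j) = c0) : Set (Fin m → Fin S)) := by
      intro s hs s' hs' hss
      rw [Finset.mem_coe, Finset.mem_filter] at hs hs'
      have h1 : Real.exp (∑ j, (κ j : ℝ) * ∑ i, ((s i : ℕ) : ℝ) * v i j)
          = Real.exp (∑ j, (κ j : ℝ) * ∑ i, ((s' i : ℕ) : ℝ) * v i j) := by
        rw [← hval, ← hval, hs.2, hs'.2]
      have h2 := Real.exp_injective h1
      -- integer relation between logarithms
      let z : Fin (m + 1) → ℤ := Fin.cons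
        (-((∑ i : Fin m, (((s i : ℕ) : ℤ) - ((s' i : ℕ) : ℤ))) * ∑ j, κ j * a 0 j))
        (fun i => (((s i : ℕ) : ℤ) - ((s' i : ℕ) : ℤ)) * ∑ j, κ j * a i.succ j)
      have hz : ∑ i, (z i : ℝ) * Real.log (p i) = 0 := by
        rw [Fin.sum_univ_succ]
        simp only [z, Fin.cons_zero, Fin.cons_succ]
        have h3 : ∑ j, (κ j : ℝ) * ∑ i, (((s i : ℕ) : ℝ) - ((s' i : ℕ) : ℝ)) * v i j = 0 := by
          have : ∑ j, (κ j : ℝ) * ∑ i, (((s i : ℕ) : ℝ) - ((s' i : ℕ) : ℝ)) * v i j
              = ∑ j, (κ j : ℝ) * ∑ i, ((s i : ℕ) : ℝ) * v i j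
                - ∑ j, (κ j : ℝ) * ∑ i, ((s' i : ℕ) : ℝ) * v i j := by
            rw [← Finset.sum_sub_distrib]
            refine Finset.sum_congr rfl ?_
            intro j _
            rw [← mul_sub, ← Finset.sum_sub_distrib]
            congr 1
            refine Finset.sum_congr rfl ?_
            intro i _
            ring
          rw [this, h2, sub_self]
        have h4 : ∑ j, (κ j : ℝ) * ∑ i, (((s i : ℕ) : ℝ) - ((s' i : ℕ) : ℝ)) * v i j
            = ∑ i : Fin m, (((s i : ℕ) : ℝ) - ((s' i : ℕ) : ℝ))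
                * (∑ j, (κ j : ℝ) * a i.succ j) * Real.log (p i.succ)
              - (∑ i : Fin m, (((s i : ℕ) : ℝ) - ((s' i : ℕ) : ℝ)))
                * (∑ j, (κ j : ℝ) * a 0 j) * Real.log (p 0) := by
          have h5 : ∑ j, (κ j : ℝ) * ∑ i, (((s i : ℕ) : ℝ) - ((s' i : ℕ) : ℝ)) * v i j
              = ∑ i, (((s i : ℕ) : ℝ) - ((s' i : ℕ) : ℝ)) * ∑ j, (κ j : ℝ) * v i j := by
            simp only [Finset.mul_sum]
            rw [Finset.sum_comm]
            refine Finset.sum_congr rfl ?_
            intro i _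
            refine Finset.sum_congr rfl ?_
            intro j _
            ring
          have h6 : ∀ i, ∑ j, (κ j : ℝ) * v i j
              = (∑ j, (κ j : ℝ) * a i.succ j) * Real.log (p i.succ)
                - (∑ j, (κ j : ℝ) * a 0 j) * Real.log (p 0) := by
            intro i
            rw [Finset.sum_mul, Finset.sum_mul, ← Finset.sum_sub_distrib]
            refine Finset.sum_congr rfl ?_
            intro j _
            simp only [v]
            ring
          rw [h5, Finset.sum_mul, Finset.sum_mul, ← Finset.sum_sub_distrib]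
          refine Finset.sum_congr rfl ?_
          intro i _
          rw [h6 i]
          ring
        rw [h4] at h3
        push_cast
        linarith
      have hz0 := log_indep p hp hinj z hz
      funext i
      by_cases hi : i ∈ I
      · exact congrFun hss ⟨i, hi⟩
      · have h6 := hz0 i.succ
        simp only [z, Fin.cons_succ] at h6
        have h7 : ∑ j, κ j * a i.succ j ≠ 0 := by
          intro h8
          apply hi
          rw [hI, Finset.mem_filter]
          exact ⟨Finset.mem_univ _, h8⟩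
        have h9 := (mul_eq_zero.mp h6).resolve_right h7
        apply Fin.ext
        omega
    calc (univ.filter (fun s : Fin m → Fin S =>
        ∏ j, (pt η (fun i => (s i : ℕ)) j) ^ (κ j) = c0)).card
        ≤ (univ : Finset (I → Fin S)).card :=
          Finset.card_le_card_of_injOn (fun (s : Fin m → Fin S) (i : I) => s i)
            (fun s _ => Finset.mem_univ _) hinj2
      _ = S ^ I.card := by simp
      _ ≤ S ^ n := Nat.pow_le_pow_right (by omega) hIcard
  have hze := zero_estimate m S n (by omega) (n + 1) η hη hfib K P hP hdeg hPvan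
  have hzb := zb_le (n + 1) K
  have h10 : (n + 1) * (2 * K) ^ (2 ^ (n + 1)) = C * S ^ (n * 2 ^ (n + 1)) := by
    rw [hC, hK, hq]
    have : 2 * (2 * A * (2 ^ (n + 1) * S)) ^ n = (2 * (2 * A * 2 ^ (n + 1)) ^ n) * S ^ n := by
      rw [← mul_assoc (2 * A), mul_pow]
      ring
    rw [this, mul_pow, ← pow_mul]
    exact (mul_assoc _ _ _).symm
  have h11 : S ^ m ≤ C * S ^ (n * 2 ^ (n + 1)) * S ^ n := by
    calc S ^ m ≤ zb (n + 1) K * S ^ n := hze
      _ ≤ ((n + 1) * (2 * K) ^ (2 ^ (n + 1))) * S ^ n := Nat.mul_le_mul_right _ hzb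
      _ = C * S ^ (n * 2 ^ (n + 1)) * S ^ n := by rw [h10]
  have h12 : S ^ m = S * (S ^ (n * 2 ^ (n + 1)) * S ^ n) := by
    rw [hm, pow_succ, pow_add]
    ring
  rw [h12, mul_assoc] at h11
  have hSpos : 0 < S := by omega
  have h13 : S ≤ C := Nat.le_of_mul_le_mul_right h11 (by positivity)
  omega

end Pool.Agent.Helper352
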