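import Mathlib
import Pool.Prelude.Def_F_7546141c

set_option autoImplicit false

namespace Pool.Agent.Helper352

open Nbb67e70a Finset

lemma dvd_L {n k : ℕ} (h1 : 1 ≤ k) (h2 : k ≤ n) : k ∣ L n :=
  Finset.dvd_lcm (f := fun x : ℕ => x) (Finset.mem_Icc.mpr ⟨h1, h2⟩)

lemma L_ne_zero (n : ℕ) : L n ≠ 0 := by
  unfold L
  rw [Ne, Finset.lcm_eq_zero_iff]
  simp

lemma L_pos (n : ℕ) : 0 < L n := Nat.pos_of_ne_zero (L_ne_zero n)

lemma cover {p f n j : ℕ} (hp : p.Prime) (hf : 1 ≤ f) (hj : n / p ^ f = j) (hj1 : 1 ≤ j)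
    (h : p ∣ a j) : p ∣ Nat.gcd (a n) (L n) := by
  have hpf : 0 < p ^ f := pow_pos hp.pos f
  have hn : p ^ f ≤ n := by
    by_contra hcon
    push Not at hcon
    rw [Nat.div_eq_of_lt hcon] at hj
    omega
  have hpL : p ^ f ∣ L n := dvd_L hpf hn
  have hpf' : p ∣ p ^ f := dvd_pow_self p (by omega)
  refine Nat.dvd_gcd ?_ (hpf'.trans hpL)
  have hjn : ∀ i, i ≤ j ↔ p ^ f * i ≤ n := by
    intro i
    rw [← hj, Nat.le_div_iff_mul_le hpf, mul_comm]
  -- c := L n / (p^f * L j)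
  have hdiv : p ^ f * L j ∣ L n := by
    obtain ⟨c, hc⟩ := hpL
    have : L j ∣ c := by
      refine Finset.lcm_dvd ?_
      intro i hi
      rw [Finset.mem_Icc] at hi
      have h1 : p ^ f * i ∣ L n := dvd_L (Nat.mul_pos hpf (by omega)) ((hjn i).mp hi.2)
      rw [hc] at h1
      exact Nat.dvd_of_mul_dvd_mul_left hpf h1
    rw [hc]
    exact Nat.mul_dvd_mul_left _ this
  obtain ⟨c, hc⟩ := hdiv
  have hsplit : a n = ∑ k ∈ (Finset.Icc 1 n).filter (fun k => p ^ f ∣ k), L n / k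
      + ∑ k ∈ (Finset.Icc 1 n).filter (fun k => ¬ p ^ f ∣ k), L n / k := by
    unfold a
    rw [Finset.sum_filter_add_sum_filter_not]
  rw [hsplit]
  refine dvd_add ?_ ?_
  · have hre : ∑ k ∈ (Finset.Icc 1 n).filter (fun k => p ^ f ∣ k), L n / k
        = ∑ i ∈ Finset.Icc 1 j, L n / (p ^ f * i) := by
      symm
      refine Finset.sum_bij (fun i _ => p ^ f * i) ?_ ?_ ?_ ?_
      · intro i hi
        rw [Finset.mem_Icc] at hi
        rw [Finset.mem_filter, Finset.mem_Icc]
        exact ⟨⟨Nat.mul_pos hpf (by omega), (hjn i).mp hi.2⟩, Dvd.intro _ rfl⟩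
      · intro i _ i' _ hii
        exact Nat.eq_of_mul_eq_mul_left hpf hii
      · intro k hk
        rw [Finset.mem_filter, Finset.mem_Icc] at hk
        obtain ⟨⟨hk1, hk2⟩, i, rfl⟩ := hk
        refine ⟨i, ?_, rfl⟩
        rw [Finset.mem_Icc]
        refine ⟨?_, (hjn i).mpr hk2⟩
        rcases Nat.eq_zero_or_pos i with h0 | h0
        · subst h0; simp at hk1
        · exact h0
      · intro i _; rfl
    rw [hre]
    have : ∑ i ∈ Finset.Icc 1 j, L n / (p ^ f * i) = c * a j := by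
      unfold a
      rw [Finset.mul_sum]
      refine Finset.sum_congr rfl ?_
      intro i hi
      rw [Finset.mem_Icc] at hi
      obtain ⟨e, he⟩ := dvd_L hi.1 hi.2
      have hi0 : 0 < i := hi.1
      rw [hc, he]
      have e1 : p ^ f * (i * e) * c = (p ^ f * i) * (c * e) := by ring
      rw [e1, Nat.mul_div_cancel_left _ (Nat.mul_pos hpf hi0), Nat.mul_div_cancel_left _ hi0]
    rw [this]
    exact Dvd.dvd.mul_left h c
  · refine Finset.dvd_sum ?_
    intro k hk
    rw [Finset.mem_filter, Finset.mem_Icc] at hk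
    obtain ⟨⟨hk1, hk2⟩, hk3⟩ := hk
    obtain ⟨e, he⟩ := dvd_L hk1 hk2
    rw [he, Nat.mul_div_cancel_left _ hk1]
    by_contra hpe
    apply hk3
    have hcop : Nat.Coprime (p ^ f) e := Nat.Coprime.pow_left _ ((Nat.Prime.coprime_iff_not_dvd hp).mpr hpe)
    have : p ^ f ∣ k * e := by rw [← he]; exact hpL
    exact hcop.dvd_of_dvd_mul_right this

lemma dvd_a_pred {l : ℕ} (hl : l.Prime) (hl2 : l ≠ 2) : l ∣ a (l - 1) := by
  have hodd : Nat.Coprime l 2 := by
    rw [Nat.coprime_primes hl Nat.prime_two]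
    exact hl2
  have hl1 : 1 < l := hl.one_lt
  have key : 2 * a (l - 1) = ∑ k ∈ Finset.Icc 1 (l - 1), (L (l-1) / k + L (l-1) / (l - k)) := by
    rw [Finset.sum_add_distrib, two_mul]
    congr 1
    unfold a
    refine Finset.sum_bij' (fun k _ => l - k) (fun k _ => l - k) ?_ ?_ ?_ ?_ ?_
    · intro k hk; rw [Finset.mem_Icc] at *; omega
    · intro k hk; rw [Finset.mem_Icc] at *; omega
    · intro k hk; rw [Finset.mem_Icc] at *; omega
    · intro k hk; rw [Finset.mem_Icc] at *; omega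
    · intro k hk
      rw [Finset.mem_Icc] at hk
      congr 1
      omega
  have h2 : l ∣ 2 * a (l - 1) := by
    rw [key]
    refine Finset.dvd_sum ?_
    intro k hk
    rw [Finset.mem_Icc] at hk
    have hk2 : 1 ≤ l - k := by omega
    obtain ⟨e, he⟩ := dvd_L hk.1 hk.2
    obtain ⟨e', he'⟩ := dvd_L hk2 (show l - k ≤ l - 1 by omega)
    have q1 : L (l-1) / k = e := by rw [he, Nat.mul_div_cancel_left _ hk.1]
    have q2 : L (l-1) / (l-k) = e' := by rw [he', Nat.mul_div_cancel_left _ hk2]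
    rw [q1, q2]
    have hprod : (k * (l - k)) * (e + e') = l * L (l - 1) := by
      have : (k * (l - k)) * (e + e') = (l - k) * (k * e) + k * ((l - k) * e') := by ring
      rw [this, ← he, ← he', ← Nat.add_mul]
      congr 1
      omega
    have hcop : Nat.Coprime l (k * (l - k)) := by
      refine Nat.Coprime.mul_right ?_ ?_
      · exact (Nat.coprime_of_lt_prime (by omega) (by omega) hl)
      · exact (Nat.coprime_of_lt_prime (by omega) (by omega) hl)
    refine hcop.dvd_of_dvd_mul_left ?_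
    rw [hprod]
    exact Dvd.intro _ rfl
  exact hodd.dvd_of_dvd_mul_left h2

lemma one_lt_a {j : ℕ} (hj : 2 ≤ j) : 1 < a j := by
  have h2 : 2 ∣ L j := dvd_L (by norm_num) hj
  have hL : 2 ≤ L j := Nat.le_of_dvd (L_pos j) h2
  unfold a
  calc 1 < L j / 1 := by rw [Nat.div_one]; omega
    _ ≤ ∑ k ∈ Finset.Icc 1 j, L j / k :=
      Finset.single_le_sum (f := fun k => L j / k) (fun _ _ => Nat.zero_le _)
        (Finset.mem_Icc.mpr ⟨le_refl 1, by omega⟩)

end Pool.Agent.Helper352
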