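import Mathlib
import Pool.Prelude.Def_F_7546141c
import Pool.Agent.Helper352.Harm
import Pool.Agent.Helper352.Kron

set_option autoImplicit false

namespace Pool.Agent.Helper352

open Nbb67e70a Finset Filter Topology

/-- Every finite dimensional rational subspace of the reals contains only finitely many of the
numbers `1 / log p`. -/
def InfRank : Prop :=
  ∀ W : Submodule ℚ ℝ, Module.Finite ℚ W → {p : ℕ | p.Prime ∧ (Real.log p)⁻¹ ∈ W}.Finite

lemma exists_extra (hIR : InfRank) (W0 : Submodule ℚ ℝ) (hW0 : Module.Finite ℚ W0) (r : ℕ) :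
    ∃ l : Fin r → ℕ, (∀ j, (l j).Prime ∧ l j ≠ 2) ∧
      ∀ c : Fin r → ℚ, ∑ j, c j • (Real.log (l j))⁻¹ ∈ W0 → c = 0 := by
  induction r with
  | zero => exact ⟨fun j => j.elim0, fun j => j.elim0, fun c _ => by ext j; exact j.elim0⟩
  | succ r ih =>
    obtain ⟨l, hl, hind⟩ := ih
    let W1 : Submodule ℚ ℝ := Submodule.span ℚ (Set.range fun j : Fin r => (Real.log (l j))⁻¹)
    have hW1 : Module.Finite ℚ W1 := Module.Finite.span_of_finite ℚ (Set.finite_range _)
    have hW : Module.Finite ℚ (W0 ⊔ W1 : Submodule ℚ ℝ) := Submodule.finite_sup W0 W1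
    have hfin := hIR (W0 ⊔ W1) hW
    have hinf : {p : ℕ | p.Prime}.Infinite := Nat.infinite_setOfPred_prime
    obtain ⟨p, hp1, hp2⟩ := (hinf.sdiff (hfin.union (Set.finite_singleton 2))).nonempty
    simp only [Set.mem_union, Set.mem_ofPred_eq, Set.mem_singleton_iff, not_or, not_and] at hp1 hp2
    refine ⟨Fin.snoc l p, ?_, ?_⟩
    · intro j
      refine Fin.lastCases ?_ (fun i => ?_) j
      · rw [Fin.snoc_last]; exact ⟨hp1, hp2.2⟩
      · rw [Fin.snoc_castSucc]; exact hl i
    · intro c hc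
      rw [Fin.sum_univ_castSucc] at hc
      simp only [Fin.snoc_castSucc, Fin.snoc_last] at hc
      have hlast : c (Fin.last r) = 0 := by
        by_contra hne
        apply hp2.1 hp1
        have hS : ∑ i : Fin r, c i.castSucc • (Real.log (l i))⁻¹ ∈ W1 := by
          refine Submodule.sum_mem _ ?_
          intro i _
          exact Submodule.smul_mem _ _ (Submodule.subset_span ⟨i, rfl⟩)
        have h1 : c (Fin.last r) • (Real.log p)⁻¹ ∈ W0 ⊔ W1 := by
          have := Submodule.sub_mem (W0 ⊔ W1) (Submodule.mem_sup_left hc)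
            (Submodule.mem_sup_right hS)
          simpa using this
        have h2 := Submodule.smul_mem (W0 ⊔ W1) (c (Fin.last r))⁻¹ h1
        rwa [smul_smul, inv_mul_cancel₀ hne, one_smul] at h2
      rw [hlast, zero_smul, add_zero] at hc
      have h3 := hind (fun i => c i.castSucc) hc
      ext j
      refine Fin.lastCases ?_ (fun i => ?_) j
      · exact hlast
      · exact congrFun h3 i

lemma div_eq_of_window {l f N : ℕ} {δ : ℝ} (hl : l.Prime) (hl2 : l ≠ 2)
    (hN : 0 < N)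
    (hδ : 4 * δ ≤ Real.log l - Real.log (l - 1 : ℕ))
    (h : |Real.log N - (f * Real.log l + (Real.log (l - 1 : ℕ) + Real.log l) / 2)| < 2 * δ) :
    N / l ^ f = l - 1 := by
  have hl3 : 3 ≤ l := by
    have := hl.two_le
    omega
  have hlpos : (0 : ℝ) < l := by positivity
  have hl1pos : (0 : ℝ) < ((l - 1 : ℕ) : ℝ) := by
    have : 0 < l - 1 := by omega
    exact_mod_cast this
  have hNpos : (0 : ℝ) < N := by exact_mod_cast hN
  rw [abs_lt] at h
  have h1 : Real.log (((l - 1 : ℕ) : ℝ) * (l : ℝ) ^ f) ≤ Real.log N := by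
    rw [Real.log_mul hl1pos.ne' (by positivity), Real.log_pow]
    linarith [h.1]
  have h2 : Real.log N < Real.log ((l : ℝ) * (l : ℝ) ^ f) := by
    rw [Real.log_mul hlpos.ne' (by positivity), Real.log_pow]
    linarith [h.2]
  have h1' : ((l - 1 : ℕ) : ℝ) * (l : ℝ) ^ f ≤ N :=
    (Real.log_le_log_iff (by positivity) hNpos).mp h1
  have h2' : (N : ℝ) < (l : ℝ) * (l : ℝ) ^ f :=
    (Real.log_lt_log_iff hNpos (by positivity)).mp h2
  have h1'' : (l - 1) * l ^ f ≤ N := by exact_mod_cast h1'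
  have h2'' : N < l * l ^ f := by exact_mod_cast h2'
  have hpos : 0 < l ^ f := by positivity
  apply Nat.div_eq_of_lt_le h1''
  rw [Nat.sub_add_cancel (by omega)]
  exact h2''

theorem gap_real (hIR : InfRank) (M : ℕ) (X0 : ℝ) :
    ∃ x : ℝ, X0 ≤ x ∧ 0 < x ∧ ∀ n : ℕ, 3 * x ≤ n → (n : ℝ) < (M / 2 : ℝ) * x →
      Nat.gcd (a n) (L n) ≠ 1 := by
  classical
  -- primes attached to the intervals
  let p : ℕ → ℕ := fun j => (a j).minFac
  have hp : ∀ j, 2 ≤ j → (p j).Prime := fun j hj =>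
    Nat.minFac_prime (by have := one_lt_a hj; omega)
  have hpa : ∀ j, p j ∣ a j := fun j => Nat.minFac_dvd _
  let W0 : Submodule ℚ ℝ := Submodule.span ℚ (Set.range fun j : Fin (M + 1) => (Real.log (p j))⁻¹)
  have hW0 : Module.Finite ℚ W0 := Module.Finite.span_of_finite ℚ (Set.finite_range _)
  obtain ⟨l, hl, hind⟩ := exists_extra hIR W0 hW0 (M + 1)
  have hl3 : ∀ j, 3 ≤ l j := fun j => by
    have := (hl j).1.two_le
    have := (hl j).2
    omega
  -- constants
  have hgap : ∀ j, 0 < Real.log (l j) - Real.log (l j - 1 : ℕ) := by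
    intro j
    have h3 := hl3 j
    have : Real.log (l j - 1 : ℕ) < Real.log (l j) := by
      apply Real.log_lt_log
      · have : 0 < l j - 1 := by omega
        exact_mod_cast this
      · have : l j - 1 < l j := by omega
        exact_mod_cast this
    linarith
  obtain ⟨δ, hδ0, hδ1, hδ2⟩ : ∃ δ : ℝ, 0 < δ ∧ δ ≤ 1 / 4 ∧
      ∀ j, 4 * δ ≤ Real.log (l j) - Real.log (l j - 1 : ℕ) := by
    have hne : (univ : Finset (Fin (M + 1))).Nonempty := univ_nonempty
    let m := univ.inf' hne (fun j => Real.log (l j) - Real.log (l j - 1 : ℕ))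
    have hm : 0 < m := by
      rw [Finset.lt_inf'_iff]
      intro j _
      exact hgap j
    refine ⟨min (1 / 4) (m / 4), ?_, min_le_left _ _, ?_⟩
    · exact lt_min (by norm_num) (by linarith)
    · intro j
      have h1 : min (1 / 4) (m / 4) ≤ m / 4 := min_le_right _ _
      have h2 : m ≤ Real.log (l j) - Real.log (l j - 1 : ℕ) := Finset.inf'_le _ (mem_univ j)
      linarith
  obtain ⟨Λ, hΛ0, hΛp, hΛl⟩ : ∃ Λ : ℝ, 0 < Λ ∧ (∀ j : Fin (M + 1), Real.log (p j) ≤ Λ) ∧
      (∀ j : Fin (M + 1), Real.log (l j) ≤ Λ) := by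
    refine ⟨1 + ∑ j : Fin (M + 1), |Real.log (p j)| + ∑ j : Fin (M + 1), |Real.log (l j)|,
      by positivity, ?_, ?_⟩
    · intro j
      have h1 : |Real.log (p j)| ≤ ∑ j : Fin (M + 1), |Real.log (p j)| :=
        Finset.single_le_sum (f := fun j : Fin (M + 1) => |Real.log (p j)|)
          (fun _ _ => abs_nonneg _) (mem_univ j)
      have h2 : 0 ≤ ∑ j : Fin (M + 1), |Real.log (l j)| :=
        Finset.sum_nonneg (fun _ _ => abs_nonneg _)
      have h3 := le_abs_self (Real.log (p j))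
      linarith
    · intro j
      have h1 : |Real.log (l j)| ≤ ∑ j : Fin (M + 1), |Real.log (l j)| :=
        Finset.single_le_sum (f := fun j : Fin (M + 1) => |Real.log (l j)|)
          (fun _ _ => abs_nonneg _) (mem_univ j)
      have h2 : 0 ≤ ∑ j : Fin (M + 1), |Real.log (p j)| :=
        Finset.sum_nonneg (fun _ _ => abs_nonneg _)
      have h3 := le_abs_self (Real.log (l j))
      linarith
  set ε : ℝ := δ / Λ with hε
  have hε0 : 0 < ε := by positivity
  have hεΛ : ε * Λ = δ := by rw [hε]; field_simp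
  -- Kronecker data
  let ω : Fin (M + 1) ⊕ Fin (M + 1) → ℝ :=
    Sum.elim (fun j => (Real.log (p j))⁻¹) (fun j => (Real.log (l j))⁻¹)
  let B : Fin (M + 1) → ℝ := fun j =>
    ((Real.log (l j - 1 : ℕ) + Real.log (l j)) / 2 - Real.log (j : ℕ)) * (Real.log (l j))⁻¹
  let β : Fin (M + 1) ⊕ Fin (M + 1) → ℝ := Sum.elim (fun _ => 0) B
  have hrel : ∀ c : Fin (M + 1) ⊕ Fin (M + 1) → ℤ, ∑ i, (c i : ℝ) * ω i = 0 →
      ∃ n : ℤ, ∑ i, (c i : ℝ) * β i = n := by
    intro c hc
    refine ⟨0, ?_⟩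
    rw [Fintype.sum_sum_type] at hc ⊢
    simp only [ω, β, Sum.elim_inl, Sum.elim_inr] at hc ⊢
    have hmem : ∑ j : Fin (M + 1), ((c (Sum.inr j) : ℤ) : ℚ) • (Real.log (l j))⁻¹ ∈ W0 := by
      have e1 : ∑ j : Fin (M + 1), ((c (Sum.inr j) : ℤ) : ℚ) • (Real.log (l j))⁻¹
          = - ∑ j : Fin (M + 1), ((c (Sum.inl j) : ℤ) : ℚ) • (Real.log (p j))⁻¹ := by
        have e2 : ∀ (q : ℤ) (y : ℝ), ((q : ℤ) : ℚ) • y = (q : ℝ) * y := by
          intro q y
          rw [Rat.smul_def]; push_cast; rfl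
        simp only [e2]
        linarith
      rw [e1]
      refine Submodule.neg_mem _ (Submodule.sum_mem _ ?_)
      intro j _
      exact Submodule.smul_mem _ _ (Submodule.subset_span ⟨j, rfl⟩)
    have hz := hind _ hmem
    have hz' : ∀ j, c (Sum.inr j) = 0 := by
      intro j
      have := congrFun hz j
      simpa using this
    simp [hz']
  -- choose the scale
  obtain ⟨t, ht, hclose⟩ := kronecker ω β hrel ε hε0
    (max (Real.log (max X0 1)) (2 * Λ + 2 + Real.log (M + 1)))
  have ht1 : Real.log (max X0 1) < t := lt_of_le_of_lt (le_max_left _ _) ht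
  have ht2 : 2 * Λ + 2 + Real.log (M + 1) < t := lt_of_le_of_lt (le_max_right _ _) ht
  have hlogM : 0 ≤ Real.log (M + 1 : ℝ) := Real.log_nonneg (by linarith [Nat.cast_nonneg (α := ℝ) M])
  set x := Real.exp t with hx
  have hx0 : 0 < x := Real.exp_pos t
  refine ⟨x, ?_, hx0, ?_⟩
  · have h1 : max X0 1 ≤ x := by
      rw [hx]
      have : (0:ℝ) < max X0 1 := lt_max_of_lt_right one_pos
      rw [← Real.exp_log this]
      exact Real.exp_le_exp.mpr ht1.le
    exact (le_max_left _ _).trans h1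
  intro n hn1 hn2 hgcd
  have hlogx : Real.log x = t := by rw [hx, Real.log_exp]
  have hnpos : (0 : ℝ) < n := by nlinarith
  have hnpos' : 0 < n := by exact_mod_cast hnpos
  -- the multiple
  set j := ⌊(n : ℝ) / x⌋₊ with hj
  have hj1 : (j : ℝ) ≤ n / x := Nat.floor_le (by positivity)
  have hj2 : (n : ℝ) / x < j + 1 := Nat.lt_floor_add_one _
  have hj3 : 3 ≤ j := by
    apply Nat.le_floor
    rw [le_div_iff₀ hx0]
    exact_mod_cast hn1
  have hjM : j < M := by
    have h1 : (j : ℝ) < M := by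
      calc (j : ℝ) ≤ n / x := hj1
        _ < M / 2 := by rw [div_lt_iff₀ hx0]; exact hn2
        _ ≤ M := by linarith [Nat.cast_nonneg (α := ℝ) M]
    exact_mod_cast h1
  have hj0 : (0 : ℝ) < j := by
    have : 0 < j := by omega
    exact_mod_cast this
  have hlogn1 : t + Real.log j ≤ Real.log n := by
    rw [← hlogx, add_comm, ← Real.log_mul hj0.ne' hx0.ne']
    apply Real.log_le_log (by positivity)
    rwa [le_div_iff₀ hx0] at hj1
  have hlogn2 : Real.log n < t + Real.log (j + 1 : ℕ) := by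
    have hj10 : (0 : ℝ) < ((j + 1 : ℕ) : ℝ) := by positivity
    rw [← hlogx, add_comm, ← Real.log_mul hj10.ne' hx0.ne']
    apply Real.log_lt_log hnpos
    rw [div_lt_iff₀ hx0] at hj2
    push_cast
    exact hj2
  -- windows
  have hwin : ∀ i : Fin (M + 1), 1 ≤ (i : ℕ) → |Real.log n - (t + Real.log (i : ℕ))| < δ → False := by
    intro i hi1 hi
    obtain ⟨f, hf⟩ := hclose (Sum.inr i)
    simp only [ω, β, Sum.elim_inr, B] at hf
    have hll : 0 < Real.log (l i) := Real.log_pos (by have := hl3 i; exact_mod_cast (by omega : 1 < l i))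
    have hli0 : Real.log (l i) ≠ 0 := hll.ne'
    have hf2 : |t + Real.log (i : ℕ) - ((f : ℝ) * Real.log (l i)
        + (Real.log (l i - 1 : ℕ) + Real.log (l i)) / 2)| < δ := by
      have e1 : t + Real.log (i : ℕ) - ((f : ℝ) * Real.log (l i)
          + (Real.log (l i - 1 : ℕ) + Real.log (l i)) / 2)
          = (t * (Real.log (l i))⁻¹ - ((Real.log (l i - 1 : ℕ) + Real.log (l i)) / 2
            - Real.log (i : ℕ)) * (Real.log (l i))⁻¹ - f) * Real.log (l i) := by
        field_simp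
        ring
      rw [e1, abs_mul, abs_of_pos hll]
      calc _ < ε * Real.log (l i) := mul_lt_mul_of_pos_right hf hll
        _ ≤ ε * Λ := mul_le_mul_of_nonneg_left (hΛl i) hε0.le
        _ = δ := hεΛ
    -- f is a positive integer
    have hfpos : 0 < f := by
      by_contra hcon
      push Not at hcon
      have h1 : (f : ℝ) * Real.log (l i) ≤ 0 :=
        mul_nonpos_of_nonpos_of_nonneg (by exact_mod_cast hcon) hll.le
      have h2 := (abs_lt.mp hf2).2
      have h3 : 0 ≤ Real.log (i : ℕ) := Real.log_nonneg (by exact_mod_cast hi1)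
      have h4 := hgap i
      have h5 := hΛl i
      linarith
    obtain ⟨g, rfl⟩ := Int.eq_ofNat_of_zero_le hfpos.le
    have hg1 : 1 ≤ g := by exact_mod_cast hfpos
    simp only [Int.cast_natCast] at hf2
    have hdiv : n / (l i) ^ g = l i - 1 := by
      apply div_eq_of_window (hl i).1 (hl i).2 hnpos' (hδ2 i)
      calc |Real.log n - ((g : ℝ) * Real.log (l i) + (Real.log (l i - 1 : ℕ) + Real.log (l i)) / 2)|
          = |(Real.log n - (t + Real.log (i : ℕ))) + (t + Real.log (i : ℕ) - ((g : ℝ) * Real.log (l i)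
            + (Real.log (l i - 1 : ℕ) + Real.log (l i)) / 2))| := by congr 1; ring
        _ ≤ |Real.log n - (t + Real.log (i : ℕ))| + |t + Real.log (i : ℕ) - ((g : ℝ) * Real.log (l i)
            + (Real.log (l i - 1 : ℕ) + Real.log (l i)) / 2)| := abs_add_le _ _
        _ < 2 * δ := by linarith
    have hdvd := cover (hl i).1 hg1 hdiv (by have := hl3 i; omega) (dvd_a_pred (hl i).1 (hl i).2)
    rw [hgcd] at hdvd
    have := Nat.le_of_dvd one_pos hdvd
    have := hl3 i
    omega
  by_cases hB : Real.log n < t + Real.log j + δ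
  · refine hwin ⟨j, by omega⟩ (by simp only; omega) ?_
    simp only
    rw [abs_lt]
    constructor <;> linarith
  by_cases hC : t + Real.log (j + 1 : ℕ) - δ < Real.log n
  · refine hwin ⟨j + 1, by omega⟩ (by simp only; omega) ?_
    simp only
    rw [abs_lt]
    constructor <;> linarith
  push Not at hB hC
  -- interior of the interval
  have hjlt : j < M + 1 := by omega
  obtain ⟨f, hf⟩ := hclose (Sum.inl ⟨j, hjlt⟩)
  simp only [ω, β, Sum.elim_inl] at hf
  have hpj := hp j (by omega)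
  have hll : 0 < Real.log (p j) := Real.log_pos (by exact_mod_cast hpj.one_lt)
  have hli0 : Real.log (p j) ≠ 0 := hll.ne'
  have hΛpj : Real.log (p j) ≤ Λ := hΛp ⟨j, hjlt⟩
  have hf2 : |t - (f : ℝ) * Real.log (p j)| < δ := by
    have e1 : t - (f : ℝ) * Real.log (p j)
        = (t * (Real.log (p j))⁻¹ - 0 - f) * Real.log (p j) := by
      field_simp
      ring
    rw [e1, abs_mul, abs_of_pos hll]
    calc _ < ε * Real.log (p j) := mul_lt_mul_of_pos_right hf hll
      _ ≤ ε * Λ := mul_le_mul_of_nonneg_left hΛpj hε0.le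
      _ = δ := hεΛ
  have hfpos : 0 < f := by
    by_contra hcon
    push Not at hcon
    have h1 : (f : ℝ) * Real.log (p j) ≤ 0 :=
      mul_nonpos_of_nonpos_of_nonneg (by exact_mod_cast hcon) hll.le
    have h2 := (abs_lt.mp hf2).2
    linarith
  obtain ⟨g, rfl⟩ := Int.eq_ofNat_of_zero_le hfpos.le
  have hg1 : 1 ≤ g := by exact_mod_cast hfpos
  simp only [Int.cast_natCast] at hf2
  have hppos : (0 : ℝ) < p j := by exact_mod_cast hpj.pos
  rw [abs_lt] at hf2
  have hdiv : n / (p j) ^ g = j := by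
    have h1 : Real.log ((j : ℝ) * (p j : ℝ) ^ g) ≤ Real.log n := by
      rw [Real.log_mul hj0.ne' (by positivity), Real.log_pow]
      linarith [hf2.1]
    have h2 : Real.log n < Real.log (((j + 1 : ℕ) : ℝ) * (p j : ℝ) ^ g) := by
      rw [Real.log_mul (by positivity) (by positivity), Real.log_pow]
      linarith [hf2.2]
    have h1' : (j : ℝ) * (p j : ℝ) ^ g ≤ n :=
      (Real.log_le_log_iff (by positivity) hnpos).mp h1
    have h2' : (n : ℝ) < ((j + 1 : ℕ) : ℝ) * (p j : ℝ) ^ g :=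
      (Real.log_lt_log_iff hnpos (by positivity)).mp h2
    exact Nat.div_eq_of_lt_le (by exact_mod_cast h1') (by exact_mod_cast h2')
  have hdvd := cover hpj hg1 hdiv (by omega) (hpa j)
  rw [hgcd] at hdvd
  have := Nat.le_of_dvd one_pos hdvd
  have := hpj.two_le
  omega

theorem gap_nat (hIR : InfRank) (K X0 : ℕ) :
    ∃ X : ℕ, X0 ≤ X ∧ ∀ n : ℕ, X ≤ n → n ≤ K * X → Nat.gcd (a n) (L n) ≠ 1 := by
  obtain ⟨x, hx1, hx0, hx⟩ := gap_real hIR (8 * K + 8) (max X0 1)
  have hx2 : (X0 : ℝ) ≤ x := (le_max_left _ _).trans hx1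
  have hx3 : (1 : ℝ) ≤ x := (le_max_right _ _).trans hx1
  refine ⟨⌈3 * x⌉₊, ?_, ?_⟩
  · have : (X0 : ℝ) ≤ (⌈3 * x⌉₊ : ℝ) := by
      calc (X0 : ℝ) ≤ x := hx2
        _ ≤ 3 * x := by linarith
        _ ≤ _ := Nat.le_ceil _
    exact_mod_cast this
  · intro n hn1 hn2
    apply hx n
    · exact (Nat.le_ceil _).trans (by exact_mod_cast hn1)
    · have h1 : (⌈3 * x⌉₊ : ℝ) < 3 * x + 1 := Nat.ceil_lt_add_one (by positivity)
      have h2 : (n : ℝ) ≤ K * ⌈3 * x⌉₊ := by exact_mod_cast hn2
      have hK : (0 : ℝ) ≤ K := Nat.cast_nonneg K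
      push_cast
      nlinarith

end Pool.Agent.Helper352
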