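import Mathlib
import Pool.Prelude.Def_F_7546141c
import Pool.Agent.Helper352.Gap

set_option autoImplicit false

namespace Pool.Agent.Helper352

open Nbb67e70a Finset Filter Topology

lemma not_theta_of_gap
    (hgap : ∀ K X0 : ℕ, ∃ X : ℕ, X0 ≤ X ∧ ∀ n : ℕ, X ≤ n → n ≤ K * X → Nat.gcd (a n) (L n) ≠ 1) :
    ¬ (Asymptotics.IsTheta atTop
      (fun x : ℕ ↦ ((((Finset.Icc 1 x).filter (fun n ↦ Nat.gcd (a n) (L n) = 1)).card : ℝ)))
      (fun x : ℕ ↦ (x : ℝ) / Real.log x)) := by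
  rintro ⟨h1, h2⟩
  obtain ⟨C1, hC1pos, hC1⟩ := h1.exists_pos
  obtain ⟨C2, hC2pos, hC2⟩ := h2.exists_pos
  rw [Asymptotics.isBigOWith_iff] at hC1 hC2
  obtain ⟨x1, hx1⟩ := eventually_atTop.mp hC1
  obtain ⟨x2, hx2⟩ := eventually_atTop.mp hC2
  obtain ⟨K, hK⟩ := exists_nat_gt (2 * (C1 * C2) + 1)
  obtain ⟨X, hX0, hX⟩ := hgap K (x1 + x2 + K + 3)
  have hK1 : 1 ≤ K := by
    have : (1 : ℝ) < K := by nlinarith [mul_pos hC1pos hC2pos]
    exact_mod_cast this.le
  have hXK : X ≤ K * X := Nat.le_mul_of_pos_left X hK1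
  have hb1 := hx1 X (by omega)
  have hb2 := hx2 (K * X) (by omega)
  -- the counting function is constant on the gap
  have hcard : ((Finset.Icc 1 (K * X)).filter (fun n ↦ Nat.gcd (a n) (L n) = 1)).card
      ≤ ((Finset.Icc 1 X).filter (fun n ↦ Nat.gcd (a n) (L n) = 1)).card := by
    apply Finset.card_le_card
    intro n hn
    rw [Finset.mem_filter, Finset.mem_Icc] at hn ⊢
    refine ⟨⟨hn.1.1, ?_⟩, hn.2⟩
    by_contra hcon
    push Not at hcon
    exact hX n hcon.le hn.1.2 hn.2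
  have hcard' : (((Finset.Icc 1 (K * X)).filter (fun n ↦ Nat.gcd (a n) (L n) = 1)).card : ℝ)
      ≤ (((Finset.Icc 1 X).filter (fun n ↦ Nat.gcd (a n) (L n) = 1)).card : ℝ) := by
    exact_mod_cast hcard
  have hXR : (3 : ℝ) ≤ X := by
    have : 3 ≤ X := by omega
    exact_mod_cast this
  have hKR : (1 : ℝ) ≤ K := by exact_mod_cast hK1
  have hKX : (K : ℝ) ≤ X := by
    have : K ≤ X := by omega
    exact_mod_cast this
  have hlogX : 0 < Real.log X := Real.log_pos (by linarith)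
  have hlogKX : Real.log ((K * X : ℕ) : ℝ) ≤ 2 * Real.log X := by
    push_cast
    rw [Real.log_mul (by linarith) (by linarith)]
    have := Real.log_le_log (by linarith) hKX
    linarith
  have hlogKX0 : 0 < Real.log ((K * X : ℕ) : ℝ) := by
    apply Real.log_pos
    push_cast
    nlinarith
  rw [Real.norm_of_nonneg (by positivity), Real.norm_of_nonneg (by positivity)] at hb1 hb2
  have key : ((K * X : ℕ) : ℝ) / Real.log ((K * X : ℕ) : ℝ) ≤ C2 * (C1 * (X / Real.log X)) := by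
    calc ((K * X : ℕ) : ℝ) / Real.log ((K * X : ℕ) : ℝ)
        ≤ C2 * (((Finset.Icc 1 (K * X)).filter (fun n ↦ Nat.gcd (a n) (L n) = 1)).card : ℝ) := hb2
      _ ≤ C2 * (((Finset.Icc 1 X).filter (fun n ↦ Nat.gcd (a n) (L n) = 1)).card : ℝ) :=
          mul_le_mul_of_nonneg_left hcard' hC2pos.le
      _ ≤ C2 * (C1 * (X / Real.log X)) := mul_le_mul_of_nonneg_left hb1 hC2pos.le
  have hlow : (K : ℝ) * X / (2 * Real.log X) ≤ ((K * X : ℕ) : ℝ) / Real.log ((K * X : ℕ) : ℝ) := by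
    push_cast
    push_cast at hlogKX hlogKX0
    exact div_le_div_of_nonneg_left (by positivity) hlogKX0 hlogKX
  have h3 := hlow.trans key
  have h4 : (K : ℝ) * X / (2 * Real.log X) = (K / 2) * (X / Real.log X) := by
    field_simp
  rw [h4] at h3
  have hpos : 0 < (X : ℝ) / Real.log X := by positivity
  have h5 : (K : ℝ) / 2 ≤ C2 * C1 := by
    by_contra hcon
    push Not at hcon
    have := mul_lt_mul_of_pos_right hcon hpos
    nlinarith
  nlinarith

end Pool.Agent.Helper352
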