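import Mathlib
import Pool.Agent.Helper352.Core

set_option autoImplicit false

namespace Pool.Agent.Helper352

open Finset

/-- Selection of primes in general position. -/
lemma general_position (W : Submodule ℚ ℝ) (d : ℕ)
    (hinf : {p : ℕ | p.Prime ∧ (Real.log p)⁻¹ ∈ W}.Infinite)
    (hsmall : ∀ W' : Submodule ℚ ℝ, Module.Finite ℚ W' → Module.finrank ℚ W' < d →
      {p : ℕ | p.Prime ∧ (Real.log p)⁻¹ ∈ W'}.Finite) (N : ℕ) :
    ∃ s : Finset ℕ, s.card = N ∧ (∀ p ∈ s, p.Prime ∧ (Real.log p)⁻¹ ∈ W) ∧
      ∀ t ⊆ s, t.card ≤ d → LinearIndepOn ℚ (fun p : ℕ => (Real.log p)⁻¹) (t : Set ℕ) := by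
  classical
  induction N with
  | zero =>
    refine ⟨∅, rfl, by simp, ?_⟩
    intro t ht _
    rw [Finset.subset_empty] at ht
    subst ht
    rw [Finset.coe_empty]
    exact linearIndepOn_empty _ _
  | succ N ih =>
    obtain ⟨s, hs1, hs2, hs3⟩ := ih
    let f : ℕ → ℝ := fun p => (Real.log p)⁻¹
    let bad : Set ℕ := (s : Set ℕ) ∪ ⋃ t ∈ (s.powerset.filter (fun t => t.card < d)),
      {p : ℕ | p.Prime ∧ (Real.log p)⁻¹ ∈ Submodule.span ℚ (f '' (t : Set ℕ))}
    have hbad : bad.Finite := by
      apply Set.Finite.union (Finset.finite_toSet s)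
      apply Set.Finite.biUnion (Finset.finite_toSet _)
      intro t ht
      rw [Finset.mem_coe, Finset.mem_filter] at ht
      have hfin : (f '' (t : Set ℕ)).Finite := (Finset.finite_toSet t).image f
      have hmf : Module.Finite ℚ (Submodule.span ℚ (f '' (t : Set ℕ))) :=
        Module.Finite.span_of_finite ℚ hfin
      apply hsmall _ hmf
      have h1 : f '' (t : Set ℕ) = ((t.image f : Finset ℝ) : Set ℝ) := by
        rw [Finset.coe_image]
      rw [h1]
      calc Module.finrank ℚ (Submodule.span ℚ ((t.image f : Finset ℝ) : Set ℝ))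
          ≤ (t.image f).card := finrank_span_finset_le_card _
        _ ≤ t.card := Finset.card_image_le
        _ < d := ht.2
    obtain ⟨p, hp1, hp2⟩ := (hinf.sdiff hbad).nonempty
    simp only [bad, Set.mem_union, Set.mem_iUnion, not_or, not_exists] at hp2
    obtain ⟨hps, hpt⟩ := hp2
    have hps' : p ∉ s := fun h => hps (Finset.mem_coe.mpr h)
    refine ⟨insert p s, ?_, ?_, ?_⟩
    · rw [Finset.card_insert_of_notMem hps', hs1]
    · intro r hr
      rw [Finset.mem_insert] at hr
      rcases hr with rfl | hr
      · exact hp1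
      · exact hs2 r hr
    · intro t ht htd
      by_cases hpt' : p ∈ t
      · set t0 := t.erase p with ht0
        have ht0s : t0 ⊆ s := by
          intro r hr
          rw [ht0, Finset.mem_erase] at hr
          have := ht hr.2
          rw [Finset.mem_insert] at this
          exact this.resolve_left hr.1
        have ht0c : t0.card < d := by
          rw [ht0, Finset.card_erase_of_mem hpt']
          have : 0 < t.card := Finset.card_pos.mpr ⟨p, hpt'⟩
          omega
        have hind0 := hs3 t0 ht0s ht0c.le
        have hnot : f p ∉ Submodule.span ℚ (f '' (t0 : Set ℕ)) := by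
          intro hmem
          exact hpt t0 (by rw [Finset.mem_filter, Finset.mem_powerset]; exact ⟨ht0s, ht0c⟩)
            ⟨hp1.1, hmem⟩
        have hins : t = insert p t0 := by rw [ht0, Finset.insert_erase hpt']
        rw [hins, Finset.coe_insert]
        exact hind0.insert hnot
      · apply hs3 t _ htd
        intro r hr
        have := ht hr
        rw [Finset.mem_insert] at this
        rcases this with rfl | h
        · exact absurd hr hpt'
        · exact h

theorem inv_log_finite_aux : ∀ (d : ℕ) (W : Submodule ℚ ℝ), Module.Finite ℚ W →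
    Module.finrank ℚ W = d → {p : ℕ | p.Prime ∧ (Real.log p)⁻¹ ∈ W}.Finite := by
  intro d
  induction d using Nat.strong_induction_on with
  | _ d ih =>
  intro W hW hd
  classical
  by_contra hcon
  have hinf : {p : ℕ | p.Prime ∧ (Real.log p)⁻¹ ∈ W}.Infinite := hcon
  have hlogpos : ∀ p : ℕ, p.Prime → 0 < Real.log p := fun p hp =>
    Real.log_pos (by exact_mod_cast hp.one_lt)
  rcases Nat.lt_or_ge d 1 with h0 | h1
  · -- dimension zero
    have hd0 : d = 0 := by omega
    obtain ⟨p, hp, hpW⟩ := hinf.nonempty
    rw [hd0] at hd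
    have := Submodule.finrank_eq_zero.mp hd
    rw [this, Submodule.mem_bot] at hpW
    have := inv_pos.mpr (hlogpos p hp)
    rw [hpW] at this
    exact lt_irrefl _ this
  have hsmall : ∀ W' : Submodule ℚ ℝ, Module.Finite ℚ W' → Module.finrank ℚ W' < d →
      {p : ℕ | p.Prime ∧ (Real.log p)⁻¹ ∈ W'}.Finite := fun W' hW' hlt =>
    ih _ hlt W' hW' rfl
  rcases Nat.lt_or_ge d 2 with h2 | h2
  · -- dimension one
    have hd1 : d = 1 := by omega
    rw [hd1] at hd
    obtain ⟨w, hw, hspan⟩ := finrank_eq_one_iff'.mp hd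
    obtain ⟨p, hp, hpW⟩ := hinf.nonempty
    obtain ⟨q, ⟨hq, hqW⟩, hqp⟩ := (hinf.sdiff (Set.finite_singleton p)).nonempty
    rw [Set.mem_singleton_iff] at hqp
    obtain ⟨r1, hr1⟩ := hspan ⟨_, hpW⟩
    obtain ⟨r2, hr2⟩ := hspan ⟨_, hqW⟩
    have hr1' := congrArg Subtype.val hr1
    have hr2' := congrArg Subtype.val hr2
    simp only [Submodule.coe_smul, Rat.smul_def] at hr1' hr2'
    have hlp := hlogpos p hp
    have hlq := hlogpos q hq
    have hw0 : (w : ℝ) ≠ 0 := by
      intro h
      exact hw (Subtype.ext h)
    have e1 : (r1 : ℝ) * w * Real.log p = 1 := by rw [hr1']; field_simp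
    have e2 : (r2 : ℝ) * w * Real.log q = 1 := by rw [hr2']; field_simp
    have e3 : (r1 : ℝ) * Real.log p = r2 * Real.log q := by
      have : (w : ℝ) * (r1 * Real.log p) = w * (r2 * Real.log q) := by
        calc (w : ℝ) * (r1 * Real.log p) = r1 * w * Real.log p := by ring
          _ = r2 * w * Real.log q := by rw [e1, e2]
          _ = w * (r2 * Real.log q) := by ring
      exact mul_left_cancel₀ hw0 this
    have hr1ne : r1 ≠ 0 := by
      rintro rfl
      simp at e1
    -- integer relation
    have e4 := log_indep (N := 2) ![p, q]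
      (by intro i; fin_cases i <;> simp [hp, hq])
      (by
        intro i j hij
        fin_cases i <;> fin_cases j <;> simp_all)
      ![r1.num * r2.den, -(r2.num * r1.den)] (by
        rw [Fin.sum_univ_two]
        simp only [Matrix.cons_val_zero, Matrix.cons_val_one, Int.cast_mul, Int.cast_natCast,
          Int.cast_neg]
        have d1 : (r1 : ℝ) = (r1.num : ℝ) / (r1.den : ℝ) := by
          exact_mod_cast (Rat.num_div_den r1).symm
        have d2 : (r2 : ℝ) = (r2.num : ℝ) / (r2.den : ℝ) := by
          exact_mod_cast (Rat.num_div_den r2).symm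
        have n1 : (r1.den : ℝ) ≠ 0 := by exact_mod_cast r1.den_ne_zero
        have n2 : (r2.den : ℝ) ≠ 0 := by exact_mod_cast r2.den_ne_zero
        rw [d1, d2] at e3
        field_simp at e3
        linarith)
    have e5 := e4 0
    simp only [Matrix.cons_val_zero] at e5
    rcases mul_eq_zero.mp e5 with h | h
    · exact hr1ne (Rat.num_eq_zero.mp h)
    · exact r2.den_ne_zero (by exact_mod_cast h)
  · -- the general case
    obtain ⟨n, hn⟩ : ∃ n, d = n + 1 := ⟨d - 1, by omega⟩
    have hn1 : 1 ≤ n := by omega
    subst hn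
    set m := n * 2 ^ (n + 1) + n + 1 with hm
    obtain ⟨s, hs1, hs2, hs3⟩ := general_position W (n + 1) hinf hsmall (m + 1)
    let e : Fin (m + 1) ≃ s := (s.equivFinOfCardEq hs1).symm
    let p : Fin (m + 1) → ℕ := fun i => (e i : ℕ)
    have hp : ∀ i, (p i).Prime := fun i => (hs2 _ (e i).2).1
    have hpW : ∀ i, (Real.log (p i))⁻¹ ∈ W := fun i => (hs2 _ (e i).2).2
    have hinj : Function.Injective p := fun i j hij => e.injective (Subtype.ext hij)
    let B : Module.Basis (Fin (n + 1)) ℚ W := Module.finBasisOfFinrankEq ℚ W hd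
    let g : Fin (m + 1) → Fin (n + 1) → ℚ := fun i j => B.repr ⟨_, hpW i⟩ j
    let D : ℕ := ∏ i, ∏ j, (g i j).den
    have hD0 : D ≠ 0 := by
      rw [Finset.prod_ne_zero_iff]
      intro i _
      rw [Finset.prod_ne_zero_iff]
      intro j _
      exact (g i j).den_ne_zero
    have hDR : (D : ℝ) ≠ 0 := by exact_mod_cast hD0
    have hDQ : (D : ℚ) ≠ 0 := by exact_mod_cast hD0
    have hint : ∀ i j, ∃ z : ℤ, (z : ℚ) = D * g i j := by
      intro i j
      have hdvd : (g i j).den ∣ D :=
        (Finset.dvd_prod_of_mem (fun j => (g i j).den) (Finset.mem_univ j)).trans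
          (Finset.dvd_prod_of_mem (fun i => ∏ j, (g i j).den) (Finset.mem_univ i))
      obtain ⟨c, hc⟩ := hdvd
      refine ⟨c * (g i j).num, ?_⟩
      push_cast
      rw [← Rat.mul_den_eq_num (g i j), hc]
      push_cast
      ring
    choose a ha using hint
    let x : Fin (n + 1) → ℝ := fun j => (B j : ℝ) / D
    have hx0 : x 0 ≠ 0 := by
      apply div_ne_zero _ hDR
      intro h
      exact B.ne_zero 0 (Subtype.ext h)
    have hax : ∀ i, (∑ j, x j * a i j) * Real.log (p i) = 1 := by
      intro i
      have h3 : ∑ j, x j * (a i j : ℝ) = (Real.log (p i))⁻¹ := by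
        have h4 := congrArg Subtype.val (B.sum_repr ⟨_, hpW i⟩)
        simp only [AddSubmonoidClass.coe_finsetSum, Submodule.coe_smul, Rat.smul_def] at h4
        rw [← h4]
        refine Finset.sum_congr rfl ?_
        intro j _
        have h5 : (a i j : ℝ) = D * (g i j : ℝ) := by exact_mod_cast congrArg (Rat.cast (K := ℝ)) (ha i j)
        rw [h5]
        simp only [x, g]
        field_simp
      rw [h3, inv_mul_cancel₀ (hlogpos _ (hp i)).ne']
    have hgp : ∀ κ : Fin (n + 1) → ℤ, κ ≠ 0 →
        (univ.filter fun i : Fin m => ∑ j, κ j * a i.succ j = 0).card ≤ n := by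
      intro κ hκ
      by_contra hcard
      push Not at hcard
      obtain ⟨I, hI1, hI2⟩ := Finset.exists_subset_card_eq (show n + 1 ≤ _ from hcard)
      -- the corresponding primes
      let t : Finset ℕ := I.image (fun i => p i.succ)
      have htcard : t.card = n + 1 := by
        rw [Finset.card_image_of_injective _ (fun i j hij => Fin.succ_injective _ (hinj hij)), hI2]
      have hts : t ⊆ s := by
        intro r hr
        rw [Finset.mem_image] at hr
        obtain ⟨i, _, rfl⟩ := hr
        exact (e i.succ).2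
      have hli := hs3 t hts htcard.le
      have hli2 : LinearIndependent ℚ (fun i : I => (Real.log (p (i : Fin m).succ))⁻¹) := by
        have h6 : LinearIndependent ℚ (fun r : (t : Set ℕ) => (Real.log ((r : ℕ) : ℝ))⁻¹) := hli
        have h7 := h6.comp (fun i : I => (⟨p (i : Fin m).succ, by
          rw [Finset.mem_coe, Finset.mem_image]
          exact ⟨i, i.2, rfl⟩⟩ : (t : Set ℕ))) (by
            intro i j hij
            have hij' : p (i : Fin m).succ = p (j : Fin m).succ :=
              congrArg (fun r : (t : Set ℕ) => (r : ℕ)) hij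
            apply Subtype.ext
            exact Fin.succ_injective _ (hinj hij'))
        exact h7
      have hli3 : LinearIndependent ℚ (fun i : I => (⟨_, hpW (i : Fin m).succ⟩ : W)) :=
        LinearIndependent.of_comp W.subtype hli2
      have hspan : Submodule.span ℚ (Set.range fun i : I => (⟨_, hpW (i : Fin m).succ⟩ : W)) = ⊤ := by
        apply hli3.span_eq_top_of_card_eq_finrank'
        rw [Fintype.card_coe, hI2, hd]
      let ℓ : W →ₗ[ℚ] ℚ := ∑ j, (κ j : ℚ) • B.coord j
      have hℓ : ∀ w, ℓ w = ∑ j, (κ j : ℚ) * B.repr w j := by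
        intro w
        simp only [ℓ, LinearMap.sum_apply, LinearMap.smul_apply, Module.Basis.coord_apply, smul_eq_mul]
      have hℓ0 : ℓ = 0 := by
        apply LinearMap.ext_on_range hspan
        intro i
        rw [hℓ, LinearMap.zero_apply]
        have h8 := hI1 i.2
        rw [Finset.mem_filter] at h8
        have h9 : ((∑ j, κ j * a (i : Fin m).succ j : ℤ) : ℚ) = 0 := by rw [h8.2]; simp
        push_cast at h9
        have h10 : D * ∑ j, (κ j : ℚ) * B.repr ⟨_, hpW (i : Fin m).succ⟩ j = 0 := by
          rw [← h9, Finset.mul_sum]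
          refine Finset.sum_congr rfl ?_
          intro j _
          rw [ha]
          simp only [g]
          ring
        exact (mul_eq_zero.mp h10).resolve_left hDQ
      apply hκ
      funext j
      have h11 : ℓ (B j) = 0 := by rw [hℓ0]; rfl
      rw [hℓ] at h11
      simp only [Module.Basis.repr_self, Finsupp.single_apply, mul_ite, mul_one, mul_zero,
        Finset.sum_ite_eq, Finset.mem_univ, if_true] at h11
      exact_mod_cast h11
    exact core n hn1 m hm p hp hinj x hx0 a hax hgp

theorem inv_log_finite (W : Submodule ℚ ℝ) (hW : Module.Finite ℚ W) :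
    {p : ℕ | p.Prime ∧ (Real.log p)⁻¹ ∈ W}.Finite :=
  inv_log_finite_aux _ W hW rfl

end Pool.Agent.Helper352
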